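import Mathlib

set_option autoImplicit false
open scoped Topology
open Filter

namespace Run7.h939

universe u v

section Avg

variable {A : Type u} [NormedRing A] [NormedAlgebra ℂ A] [NormOneClass A]

/-- The Cesàro averages of the powers of `μ`. -/
noncomputable def avg (μ : A) (m : ℕ) : A :=
  ((m : ℂ) + 1)⁻¹ • ∑ k ∈ Finset.range (m + 1), μ ^ k

theorem norm_inv_succ (m : ℕ) : ‖((m : ℂ) + 1)⁻¹‖ = ((m : ℝ) + 1)⁻¹ := by
  rw [norm_inv]
  congr 1
  have : ((m : ℂ) + 1) = (((m : ℝ) + 1 : ℝ) : ℂ) := by push_cast; rfl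
  rw [this, Complex.norm_real, Real.norm_of_nonneg (by positivity)]

omit [NormOneClass A] in
theorem norm_avg_le {μ : A} (hμ : ∀ k, ‖μ ^ k‖ ≤ 1) (m : ℕ) : ‖avg μ m‖ ≤ 1 := by
  rw [avg, norm_smul, norm_inv_succ]
  have h1 : ‖∑ k ∈ Finset.range (m + 1), μ ^ k‖ ≤ (m : ℝ) + 1 := by
    refine (norm_sum_le _ _).trans ?_
    refine (Finset.sum_le_sum fun k _ => hμ k).trans ?_
    simp
  rw [inv_mul_le_iff₀ (by positivity), mul_one]
  exact h1

omit [NormOneClass A] in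
theorem commute_avg (μ : A) (m : ℕ) : Commute μ (avg μ m) := by
  rw [avg]
  apply Commute.smul_right
  apply Commute.sum_right
  intro k _
  exact (Commute.refl μ).pow_right k

omit [NormOneClass A] in
theorem commute_avg' {μ b : A} (h : Commute μ b) (m : ℕ) : Commute (avg μ m) b := by
  rw [avg]
  apply Commute.smul_left
  apply Commute.sum_left
  intro k _
  exact h.pow_left k

omit [NormOneClass A] in
theorem one_sub_avg (μ : A) (m : ℕ) : ∃ B, Commute μ B ∧ 1 - avg μ m = (1 - μ) * B := by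
  refine ⟨((m : ℂ) + 1)⁻¹ • ∑ k ∈ Finset.range (m + 1), ∑ i ∈ Finset.range k, μ ^ i, ?_, ?_⟩
  · apply Commute.smul_right
    apply Commute.sum_right
    intro k _
    apply Commute.sum_right
    intro i _
    exact (Commute.refl μ).pow_right i
  · rw [mul_smul_comm, Finset.mul_sum, avg]
    simp only [mul_neg_geom_sum]
    rw [Finset.sum_sub_distrib, smul_sub]
    congr 1
    rw [Finset.sum_const, Finset.card_range, ← Nat.cast_smul_eq_nsmul ℂ, smul_smul]
    have h : ((m : ℂ) + 1)⁻¹ * ((m + 1 : ℕ) : ℂ) = 1 := by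
      push_cast
      exact inv_mul_cancel₀ (by exact_mod_cast Nat.succ_ne_zero m)
    rw [h, one_smul]

theorem tendsto_avg_mul_one_sub {μ : A} (hμ : ∀ k, ‖μ ^ k‖ ≤ 1) :
    Tendsto (fun m => avg μ m * (1 - μ)) atTop (𝓝 0) := by
  have hb : ∀ m, ‖avg μ m * (1 - μ)‖ ≤ ((m : ℝ) + 1)⁻¹ * 2 := by
    intro m
    rw [avg, smul_mul_assoc, geom_sum_mul_neg, norm_smul, norm_inv_succ]
    refine mul_le_mul_of_nonneg_left ?_ (by positivity)
    refine (norm_sub_le _ _).trans ?_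
    rw [norm_one]
    linarith [hμ (m + 1)]
  refine squeeze_zero_norm hb ?_
  have h1 : Tendsto (fun m : ℕ => ((m : ℝ) + 1)⁻¹) atTop (𝓝 0) := by
    simpa [one_div] using tendsto_one_div_add_atTop_nhds_zero_nat (𝕜 := ℝ)
  simpa using h1.mul_const 2

theorem tendsto_avg_mul {μ : A} (hμ : ∀ k, ‖μ ^ k‖ ≤ 1) (b : A) :
    Tendsto (fun m => avg μ m * ((1 - μ) * b)) atTop (𝓝 0) := by
  have := (tendsto_avg_mul_one_sub hμ).mul_const b
  simpa [mul_assoc] using this

theorem tendsto_avg_mul_one_sub_avg {μ : A} (hμ : ∀ k, ‖μ ^ k‖ ≤ 1) (j : ℕ) :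
    Tendsto (fun m => avg μ m * (1 - avg μ j)) atTop (𝓝 0) := by
  obtain ⟨B, _, hB⟩ := one_sub_avg μ j
  rw [hB]
  exact tendsto_avg_mul hμ B

end Avg

section Fact

variable {A : Type u} [NormedRing A] [NormedAlgebra ℂ A] [NormOneClass A] [CompleteSpace A]

theorem exists_inv {μ : A} (hμ : ∀ k, ‖μ ^ k‖ ≤ 1) (m : ℕ) :
    ∃ e : A, (1 - (1 / 2 : ℂ) • avg μ m) * e = 1 ∧ e * (1 - (1 / 2 : ℂ) • avg μ m) = 1 ∧
      ‖e‖ ≤ 2 ∧ Commute μ e := by
  have h12 : ‖(1 / 2 : ℂ) • avg μ m‖ ≤ 1 / 2 := by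
    rw [norm_smul]
    have := norm_avg_le hμ m
    have h2 : ‖(1 / 2 : ℂ)‖ = 1 / 2 := by norm_num
    rw [h2]
    linarith
  have hlt : ‖(1 / 2 : ℂ) • avg μ m‖ < 1 := lt_of_le_of_lt h12 (by norm_num)
  let U := Units.oneSub _ hlt
  refine ⟨((U⁻¹ : Aˣ) : A), ?_, ?_, ?_, ?_⟩
  · exact U.mul_inv
  · exact U.inv_mul
  · have h1 := tsum_geometric_le_of_norm_lt_one _ hlt
    have h2 : ‖((U⁻¹ : Aˣ) : A)‖ ≤ ‖(1 : A)‖ - 1 + (1 - ‖(1 / 2 : ℂ) • avg μ m‖)⁻¹ := h1
    refine h2.trans ?_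
    rw [norm_one, sub_self, zero_add]
    have : (1 / 2 : ℝ) ≤ 1 - ‖(1 / 2 : ℂ) • avg μ m‖ := by linarith
    calc (1 - ‖(1 / 2 : ℂ) • avg μ m‖)⁻¹ ≤ (1 / 2 : ℝ)⁻¹ := by
          apply inv_anti₀ (by norm_num) this
      _ = 2 := by norm_num
  · have h1 : Commute μ (U : A) := by
      show Commute μ (1 - (1 / 2 : ℂ) • avg μ m)
      exact (Commute.one_right μ).sub_right ((commute_avg μ m).smul_right _)
    exact h1.units_inv_right

variable {X : Type v} [NormedAddCommGroup X] [NormedSpace ℂ X]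

/-- The invariant of the construction. -/
structure Inv (μ : A) (Θ : A →L[ℂ] (X →L[ℂ] X)) (x : X) (n : ℕ) (s : A × A × X) : Prop where
  cp : Commute μ s.1
  cq : Commute μ s.2.1
  pq : s.1 * s.2.1 = 1
  qp : s.2.1 * s.1 = 1
  hy : s.2.2 = Θ s.2.1 x
  lim : Tendsto (fun m => avg μ m * s.1 - ((1 / 2 : ℂ) ^ n) • avg μ m) atTop (𝓝 0)

theorem Inv.zero (μ : A) (Θ : A →L[ℂ] (X →L[ℂ] X)) (h1 : Θ 1 = 1) (x : X) :
    Inv μ Θ x 0 (1, 1, x) where
  cp := Commute.one_right μ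
  cq := Commute.one_right μ
  pq := one_mul 1
  qp := one_mul 1
  hy := by rw [h1]; rfl
  lim := by
    simp only [pow_zero, one_smul, mul_one, sub_self]
    exact tendsto_const_nhds

theorem Inv.step {μ : A} (hμ : ∀ k, ‖μ ^ k‖ ≤ 1) {Θ : A →L[ℂ] (X →L[ℂ] X)}
    (hΘ : ∀ a b : A, Commute a b → Θ (a * b) = Θ a * Θ b) {x : X}
    (hx : Tendsto (fun m => Θ (avg μ m) x) atTop (𝓝 0)) {n : ℕ} {s : A × A × X}
    (hs : Inv μ Θ x n s) :
    ∃ s' : A × A × X, Inv μ Θ x (n + 1) s' ∧ ‖s'.1 - s.1‖ ≤ (1 / 2) ^ n ∧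
      ‖s'.2.2 - s.2.2‖ ≤ ‖Θ‖ * (1 / 2) ^ n := by
  obtain ⟨p, q, y⟩ := s
  obtain ⟨cp, cq, pq, qp, hy, lim⟩ := hs
  simp only at cp cq pq qp hy lim
  have hpos : (0 : ℝ) < (1 / 2) ^ n := by positivity
  have ev1 : ∀ᶠ m in atTop, ‖avg μ m * p - ((1 / 2 : ℂ) ^ n) • avg μ m‖ < (1 / 2) ^ n := by
    have := lim.norm
    rw [norm_zero] at this
    exact this.eventually_lt_const hpos
  have hlim2 : Tendsto (fun m => Θ (avg μ m) y) atTop (𝓝 0) := by
    have h1 : ∀ m, Θ (avg μ m) y = Θ q (Θ (avg μ m) x) := by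
      intro m
      rw [hy]
      have hc : Commute (avg μ m) q := commute_avg' cq m
      have h2 := hΘ _ _ hc
      have h3 := hΘ _ _ hc.symm
      rw [hc.eq] at h2
      have h4 : Θ (avg μ m) * Θ q = Θ q * Θ (avg μ m) := by rw [← h2, ← h3]
      exact congrArg (fun T : X →L[ℂ] X => T x) h4
    simp only [h1]
    have := ((Θ q).continuous.tendsto 0).comp hx
    rw [map_zero] at this
    exact this
  have ev2 : ∀ᶠ m in atTop, ‖Θ (avg μ m) y‖ < (1 / 2) ^ n := by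
    have := hlim2.norm
    rw [norm_zero] at this
    exact this.eventually_lt_const hpos
  obtain ⟨m, hm1, hm2⟩ := (ev1.and ev2).exists
  obtain ⟨e, he1, he2, he3, he4⟩ := exists_inv hμ m
  set E : A := 1 - (1 / 2 : ℂ) • avg μ m with hE
  have cE : Commute μ E :=
    (Commute.one_right μ).sub_right ((commute_avg μ m).smul_right _)
  have cam : ∀ b : A, Commute μ b → Commute E b := by
    intro b hb
    exact (Commute.one_left b).sub_left ((commute_avg' hb m).smul_left _)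
  have ceq : Commute e q := by
    have h1 : Commute E q := cam q cq
    have h2 : q * e = e * q := by
      calc q * e = (e * E) * (q * e) := by rw [he2, one_mul]
        _ = e * (E * q) * e := by simp only [mul_assoc]
        _ = e * (q * E) * e := by rw [h1.eq]
        _ = e * q * (E * e) := by simp only [mul_assoc]
        _ = e * q := by rw [he1, mul_one]
    exact h2.symm
  refine ⟨(p * E, e * q, Θ e y), ⟨cp.mul_right cE, he4.mul_right cq, ?_, ?_, ?_, ?_⟩, ?_, ?_⟩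
  · show p * E * (e * q) = 1
    calc p * E * (e * q) = p * (E * e) * q := by simp only [mul_assoc]
      _ = 1 := by rw [he1, mul_one, pq]
  · show e * q * (p * E) = 1
    calc e * q * (p * E) = e * (q * p) * E := by simp only [mul_assoc]
      _ = 1 := by rw [qp, mul_one, he2]
  · show Θ e y = Θ (e * q) x
    rw [hΘ _ _ ceq, hy]
    rfl
  · show Tendsto (fun k => avg μ k * (p * E) - ((1 / 2 : ℂ) ^ (n + 1)) • avg μ k) atTop (𝓝 0)
    have h1 : ∀ k, avg μ k * (p * E) - ((1 / 2 : ℂ) ^ (n + 1)) • avg μ k =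
        (avg μ k * p - ((1 / 2 : ℂ) ^ n) • avg μ k) * E +
          ((1 / 2 : ℂ) ^ (n + 1)) • (avg μ k * (1 - avg μ m)) := by
      intro k
      have h2 : avg μ k * E = (1 / 2 : ℂ) • avg μ k +
          (1 / 2 : ℂ) • (avg μ k * (1 - avg μ m)) := by
        rw [hE, mul_sub, mul_one, mul_sub, mul_one, mul_smul_comm, smul_sub, ← add_sub_assoc,
          ← add_smul]
        norm_num
      rw [sub_mul, ← mul_assoc, smul_mul_assoc, h2, smul_add, smul_smul, smul_smul, ← pow_succ]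
      abel
    simp only [h1]
    have h3 := lim.mul_const E
    have h4 := (tendsto_avg_mul_one_sub_avg hμ m).const_smul ((1 / 2 : ℂ) ^ (n + 1))
    have h5 := h3.add h4
    simpa using h5
  · show ‖p * E - p‖ ≤ (1 / 2) ^ n
    have h1 : p * E - p = -((1 / 2 : ℂ) • (avg μ m * p)) := by
      rw [hE, mul_sub, mul_one, mul_smul_comm, (commute_avg' cp m).eq]
      abel
    rw [h1, norm_neg, norm_smul]
    have h2 : ‖(1 / 2 : ℂ)‖ = 1 / 2 := by norm_num
    have h3 : ‖avg μ m * p‖ ≤ 2 * (1 / 2) ^ n := by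
      calc ‖avg μ m * p‖ = ‖(avg μ m * p - ((1 / 2 : ℂ) ^ n) • avg μ m) +
            ((1 / 2 : ℂ) ^ n) • avg μ m‖ := by rw [sub_add_cancel]
        _ ≤ ‖avg μ m * p - ((1 / 2 : ℂ) ^ n) • avg μ m‖ + ‖((1 / 2 : ℂ) ^ n) • avg μ m‖ :=
            norm_add_le _ _
        _ ≤ (1 / 2) ^ n + (1 / 2) ^ n * 1 := by
            refine add_le_add hm1.le ?_
            rw [norm_smul, norm_pow, h2]
            exact mul_le_mul_of_nonneg_left (norm_avg_le hμ m) hpos.le
        _ = 2 * (1 / 2) ^ n := by ring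
    rw [h2]
    linarith
  · show ‖Θ e y - y‖ ≤ ‖Θ‖ * (1 / 2) ^ n
    have hone : Θ 1 y = y := by
      have h1 := hΘ p q (by rw [Commute, SemiconjBy, pq, qp])
      have h2 := hΘ q p (by rw [Commute, SemiconjBy, pq, qp])
      have h3 := hΘ 1 q (Commute.one_left q)
      rw [one_mul] at h3
      rw [hy]
      have := congrArg (fun T : X →L[ℂ] X => T x) h3
      exact this.symm
    have h1 : Θ e y - y = (1 / 2 : ℂ) • Θ e (Θ (avg μ m) y) := by
      have hcE : Commute e E := by rw [Commute, SemiconjBy, he1, he2]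
      have hca : Commute e (avg μ m) := (commute_avg' he4 m).symm
      have h2 : Θ e (Θ E y) = y := by
        have h3 := hΘ e E hcE
        rw [he2] at h3
        have h4 : Θ 1 y = Θ e (Θ E y) := congrArg (fun T : X →L[ℂ] X => T y) h3
        rw [← h4]
        exact hone
      have h5 : Θ E y = y - (1 / 2 : ℂ) • Θ (avg μ m) y := by
        rw [hE, map_sub, map_smul, sub_apply, smul_apply, hone]
      rw [h5, map_sub, map_smul] at h2
      have h6 : Θ e y = y + (1 / 2 : ℂ) • Θ e (Θ (avg μ m) y) := by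
        rw [← sub_eq_iff_eq_add]
        exact h2
      rw [h6]
      abel
    rw [h1, norm_smul]
    have h2 : ‖(1 / 2 : ℂ)‖ = 1 / 2 := by norm_num
    rw [h2]
    have h3 : ‖Θ e (Θ (avg μ m) y)‖ ≤ ‖Θ‖ * 2 * (1 / 2) ^ n := by
      refine (Θ.le_opNorm₂ e _).trans ?_
      have hn : (0 : ℝ) ≤ ‖Θ‖ := Θ.opNorm_nonneg
      exact mul_le_mul (mul_le_mul_of_nonneg_left he3 hn) hm2.le (norm_nonneg _)
        (by positivity)
    linarith

/-- A factorization theorem of Cohen type. -/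
theorem factor [CompleteSpace X] {μ : A} (hμ : ∀ k, ‖μ ^ k‖ ≤ 1) {Θ : A →L[ℂ] (X →L[ℂ] X)}
    (h1 : Θ 1 = 1) (hΘ : ∀ a b : A, Commute a b → Θ (a * b) = Θ a * Θ b) {x : X}
    (hx : Tendsto (fun m => Θ (avg μ m) x) atTop (𝓝 0)) :
    ∃ p : A, ∃ y : X, Commute μ p ∧ Tendsto (fun m => avg μ m * p) atTop (𝓝 0) ∧ Θ p y = x ∧
      Tendsto (fun m => Θ (avg μ m) y) atTop (𝓝 0) ∧
      ∀ Z : Submodule ℂ X, IsClosed (Z : Set X) → x ∈ Z → (∀ a, ∀ z ∈ Z, Θ a z ∈ Z) → y ∈ Z := by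
  classical
  let S := A × A × X
  have hstep : ∀ n (s : {s : S // Inv μ Θ x n s}), ∃ s' : {s : S // Inv μ Θ x (n + 1) s},
      ‖s'.1.1 - s.1.1‖ ≤ (1 / 2) ^ n ∧ ‖s'.1.2.2 - s.1.2.2‖ ≤ ‖Θ‖ * (1 / 2) ^ n := by
    intro n s
    obtain ⟨s', h, h'⟩ := Inv.step hμ hΘ hx s.2
    exact ⟨⟨s', h⟩, h'⟩
  choose nxt hnxt using hstep
  let sq : ∀ n, {s : S // Inv μ Θ x n s} := fun n =>
    Nat.rec (motive := fun n => {s : S // Inv μ Θ x n s}) ⟨(1, 1, x), Inv.zero μ Θ h1 x⟩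
      (fun n s => nxt n s) n
  have hsq : ∀ n, sq (n + 1) = nxt n (sq n) := fun n => rfl
  have d1 : ∀ n, ‖(sq (n + 1)).1.1 - (sq n).1.1‖ ≤ (1 / 2) ^ n := by
    intro n
    rw [hsq]
    exact (hnxt n (sq n)).1
  have d2 : ∀ n, ‖(sq (n + 1)).1.2.2 - (sq n).1.2.2‖ ≤ ‖Θ‖ * (1 / 2) ^ n := by
    intro n
    rw [hsq]
    exact (hnxt n (sq n)).2
  have c1 : CauchySeq (fun n => (sq n).1.1) := by
    refine cauchySeq_of_le_geometric (1 / 2) 1 (by norm_num) fun n => ?_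
    rw [dist_comm, dist_eq_norm, one_mul]
    exact d1 n
  have c2 : CauchySeq (fun n => (sq n).1.2.2) := by
    refine cauchySeq_of_le_geometric (1 / 2) ‖Θ‖ (by norm_num) fun n => ?_
    rw [dist_comm, dist_eq_norm]
    exact d2 n
  obtain ⟨p, hp⟩ := cauchySeq_tendsto_of_complete c1
  obtain ⟨y, hy⟩ := cauchySeq_tendsto_of_complete c2
  refine ⟨p, y, ?_, ?_, ?_, ?_, ?_⟩
  · have e1 : Tendsto (fun n => μ * (sq n).1.1) atTop (𝓝 (μ * p)) := hp.const_mul μ
    have e2 : Tendsto (fun n => (sq n).1.1 * μ) atTop (𝓝 (p * μ)) := hp.mul_const μ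
    have e3 : (fun n => μ * (sq n).1.1) = fun n => (sq n).1.1 * μ := by
      funext n
      exact (sq n).2.cp.eq
    rw [e3] at e1
    exact tendsto_nhds_unique e1 e2
  · rw [Metric.tendsto_atTop]
    intro ε hε
    have hh : Tendsto (fun n : ℕ => ((1 / 2 : ℝ)) ^ n) atTop (𝓝 0) :=
      tendsto_pow_atTop_nhds_zero_of_lt_one (by norm_num) (by norm_num)
    have hp' : Tendsto (fun n => ‖(sq n).1.1 - p‖) atTop (𝓝 0) := by
      rw [← tendsto_iff_norm_sub_tendsto_zero]; exact hp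
    obtain ⟨n, hn1, hn2⟩ := ((hh.eventually_lt_const (show (0 : ℝ) < ε / 3 by positivity)).and
      (hp'.eventually_lt_const (show (0 : ℝ) < ε / 3 by positivity))).exists
    have hl := (sq n).2.lim.norm
    rw [norm_zero] at hl
    obtain ⟨N, hN⟩ := eventually_atTop.1 (hl.eventually_lt_const (show (0 : ℝ) < ε / 3 by positivity))
    refine ⟨N, fun m hm => ?_⟩
    rw [dist_zero_right]
    have e1 : avg μ m * p = -(avg μ m * ((sq n).1.1 - p)) +
        (avg μ m * (sq n).1.1 - ((1 / 2 : ℂ) ^ n) • avg μ m) + ((1 / 2 : ℂ) ^ n) • avg μ m := by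
      rw [mul_sub]
      abel
    rw [e1]
    refine lt_of_le_of_lt (norm_add₃_le) ?_
    have h2 : ‖(1 / 2 : ℂ)‖ = 1 / 2 := by norm_num
    have b1 : ‖-(avg μ m * ((sq n).1.1 - p))‖ < ε / 3 := by
      rw [norm_neg]
      refine lt_of_le_of_lt (norm_mul_le _ _) ?_
      refine lt_of_le_of_lt (mul_le_mul_of_nonneg_right (norm_avg_le hμ m) (norm_nonneg _)) ?_
      rw [one_mul]
      exact hn2
    have b2 := hN m hm
    have b3 : ‖((1 / 2 : ℂ) ^ n) • avg μ m‖ ≤ (1 / 2) ^ n := by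
      rw [norm_smul, norm_pow, h2]
      have := mul_le_mul_of_nonneg_left (norm_avg_le hμ m)
        (show (0 : ℝ) ≤ (1 / 2) ^ n by positivity)
      simpa using this
    linarith
  · have e1 : ∀ n, Θ (sq n).1.1 (sq n).1.2.2 = x := by
      intro n
      have hI := (sq n).2
      have h3 := hΘ (sq n).1.1 (sq n).1.2.1 (by rw [Commute, SemiconjBy, hI.pq, hI.qp])
      rw [hI.pq, h1] at h3
      rw [hI.hy]
      exact (congrArg (fun T : X →L[ℂ] X => T x) h3).symm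
    have e2 : Tendsto (fun n => Θ (sq n).1.1 (sq n).1.2.2) atTop (𝓝 (Θ p y)) := by
      have hc : Continuous (fun z : A × X => Θ z.1 z.2) := by fun_prop
      exact (hc.tendsto (p, y)).comp (hp.prodMk_nhds hy)
    simp only [e1] at e2
    exact tendsto_nhds_unique e2 tendsto_const_nhds
  · have hyn : ∀ n, Tendsto (fun m => Θ (avg μ m) (sq n).1.2.2) atTop (𝓝 0) := by
      intro n
      have hI := (sq n).2
      have h1 : ∀ m, Θ (avg μ m) (sq n).1.2.2 = Θ (sq n).1.2.1 (Θ (avg μ m) x) := by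
        intro m
        rw [hI.hy]
        have hc : Commute (avg μ m) (sq n).1.2.1 := commute_avg' hI.cq m
        have h2 := hΘ _ _ hc
        have h3 := hΘ _ _ hc.symm
        rw [hc.eq] at h2
        have h4 : Θ (avg μ m) * Θ (sq n).1.2.1 = Θ (sq n).1.2.1 * Θ (avg μ m) := by
          rw [← h2, ← h3]
        exact congrArg (fun T : X →L[ℂ] X => T x) h4
      simp only [h1]
      have := ((Θ (sq n).1.2.1).continuous.tendsto 0).comp hx
      rw [map_zero] at this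
      exact this
    rw [Metric.tendsto_atTop]
    intro ε hε
    have hy' : Tendsto (fun n => ‖Θ‖ * ‖(sq n).1.2.2 - y‖) atTop (𝓝 0) := by
      have : Tendsto (fun n => ‖(sq n).1.2.2 - y‖) atTop (𝓝 0) := by
        rw [← tendsto_iff_norm_sub_tendsto_zero]; exact hy
      simpa using this.const_mul ‖Θ‖
    obtain ⟨n, hn⟩ := (hy'.eventually_lt_const (show (0 : ℝ) < ε / 2 by positivity)).exists
    have hl := (hyn n).norm
    rw [norm_zero] at hl
    obtain ⟨N, hN⟩ := eventually_atTop.1 (hl.eventually_lt_const (show (0 : ℝ) < ε / 2 by positivity))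
    refine ⟨N, fun m hm => ?_⟩
    rw [dist_zero_right]
    have e1 : Θ (avg μ m) y = Θ (avg μ m) (sq n).1.2.2 - Θ (avg μ m) ((sq n).1.2.2 - y) := by
      rw [map_sub]
      abel
    rw [e1]
    refine lt_of_le_of_lt (norm_sub_le _ _) ?_
    have b1 : ‖Θ (avg μ m) ((sq n).1.2.2 - y)‖ ≤ ‖Θ‖ * ‖(sq n).1.2.2 - y‖ := by
      refine (Θ.le_opNorm₂ _ _).trans ?_
      refine mul_le_mul_of_nonneg_right ?_ (norm_nonneg _)
      have := mul_le_mul_of_nonneg_left (norm_avg_le hμ m) (norm_nonneg Θ)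
      simpa using this
    have b2 := hN m hm
    linarith
  · intro Z hZ hxZ hinv
    refine hZ.mem_of_tendsto hy (Eventually.of_forall fun n => ?_)
    show (sq n).1.2.2 ∈ Z
    rw [(sq n).2.hy]
    exact hinv _ _ hxZ

end Fact

end Run7.h939
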