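import Pool.Agent.Run7.h939.IdealSq

set_option autoImplicit false
open scoped ENNReal Topology
open Filter

namespace Run7.h939

universe u

/-- The main theorem in terms of `lp` and explicit convolution sums. -/
theorem lp_form {G : Type u} [Group G] [Countable G]
    (I : Submodule ℂ (lp (fun _ : G => ℂ) 1))
    (hcl : IsClosed (I : Set (lp (fun _ : G => ℂ) 1)))
    (hr : ∀ f ∈ I, ∀ g h : lp (fun _ : G => ℂ) 1,
      (∀ x : G, h x = ∑' y : G, f y * g (y⁻¹ * x)) → h ∈ I)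
    (hl : ∀ f ∈ I, ∀ g h : lp (fun _ : G => ℂ) 1,
      (∀ x : G, h x = ∑' y : G, g y * f (y⁻¹ * x)) → h ∈ I)
    (hfin : FiniteDimensional ℂ ((lp (fun _ : G => ℂ) 1) ⧸ I)) :
    Submodule.span ℂ
        {h : lp (fun _ : G => ℂ) 1 |
          ∃ a ∈ I, ∃ b ∈ I, ∀ x : G,
            h x = ∑' y : G, a y * b (y⁻¹ * x)} = I := by
  let J : Submodule ℂ (L1 G) := I
  have hclJ : IsClosed (J : Set (L1 G)) := hcl
  have hfinJ : FiniteDimensional ℂ (L1 G ⧸ J) := hfin
  have hl' : ∀ a : L1 G, ∀ i ∈ J, a * i ∈ J := fun a i hi =>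
    hl i hi a (a * i) fun x => cf_mul a i x
  have hr' : ∀ a : L1 G, ∀ i ∈ J, i * a ∈ J := fun a i hi =>
    hr i hi a (i * a) fun x => cf_mul i a x
  have h := ideal_sq J hl' hr'
  have hset : {h : lp (fun _ : G => ℂ) 1 |
          ∃ a ∈ I, ∃ b ∈ I, ∀ x : G,
            h x = ∑' y : G, a y * b (y⁻¹ * x)} =
      {z : L1 G | ∃ a ∈ J, ∃ b ∈ J, z = a * b} := by
    apply Set.ext
    intro z
    constructor
    · rintro ⟨a, ha, b, hb, hz⟩
      refine ⟨a, ha, b, hb, ?_⟩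
      apply cf_ext
      intro x
      exact (hz x).trans (cf_mul (G := G) a b x).symm
    · rintro ⟨a, ha, b, hb, rfl⟩
      exact ⟨a, ha, b, hb, fun x => cf_mul a b x⟩
  rw [hset]
  exact h

end Run7.h939
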