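import Pool.Agent.Run7.h939.MainMod

set_option autoImplicit false
open scoped ENNReal Topology
open Filter

namespace Run7.h939

universe u v w z

section Untwist

variable {G : Type u} [Group G]
  {E : Type v} [NormedAddCommGroup E] [NormedSpace ℂ E] [FiniteDimensional ℂ E]
  {X : Type w} [NormedAddCommGroup X] [NormedSpace ℂ X] [CompleteSpace X]

theorem wt2_bdd (ρ : BRep G E) (v : E) (i : Fin (Module.finrank ℂ E)) :
    Bdd (fun g : G => ((Module.finBasis ℂ E).coord i (ρ.op g v)) • (del g : L1 G)) := by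
  obtain ⟨C, hC⟩ := ρ.bdd
  let c : E →L[ℂ] ℂ := LinearMap.toContinuousLinearMap ((Module.finBasis ℂ E).coord i)
  refine ⟨‖c‖ * (C * ‖v‖), fun g => ?_⟩
  rw [norm_smul, norm_del, mul_one]
  refine (c.le_opNorm _).trans ?_
  refine mul_le_mul_of_nonneg_left ?_ (norm_nonneg _)
  refine ((ρ.op g).le_opNorm v).trans ?_
  exact mul_le_mul_of_nonneg_right (hC _) (norm_nonneg _)

/-- The elements of `ℓ¹(G)` used to undo the twist. -/
noncomputable def wt2 (ρ : BRep G E) (v : E) (i : Fin (Module.finrank ℂ E)) : L1 G →L[ℂ] L1 G :=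
  lift _ (wt2_bdd ρ v i)

theorem wt2_del (ρ : BRep G E) (v : E) (i : Fin (Module.finrank ℂ E)) (g : G) :
    wt2 ρ v i (del g) = ((Module.finBasis ℂ E).coord i (ρ.op g v)) • (del g : L1 G) :=
  lift_del _ _ g

theorem untwist (ρ : BRep G E) (σ : BRep G X) (f : L1 G) (ξ : E →L[ℂ] X) (v : E) :
    σ.act f (ξ v) = ∑ i, (homRep ρ σ).act (wt2 ρ v i f) ξ (Module.finBasis ℂ E i) := by
  let L : L1 G →L[ℂ] X := (ContinuousLinearMap.apply ℂ X (ξ v)).comp σ.act
  let R : L1 G →L[ℂ] X := ∑ i,
    ((ContinuousLinearMap.apply ℂ X (Module.finBasis ℂ E i)).comp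
      ((ContinuousLinearMap.apply ℂ (E →L[ℂ] X) ξ).comp ((homRep ρ σ).act.comp (wt2 ρ v i))))
  have h : L = R := by
    apply clm_ext
    intro g
    show σ.act (del g) (ξ v) = R (del g)
    rw [BRep.act_del]
    simp only [R, sum_apply, ContinuousLinearMap.comp_apply,
      ContinuousLinearMap.apply_apply, wt2_del, map_smul, BRep.act_del, smul_apply, homRep_op]
    have h1 : ρ.op g⁻¹ (ρ.op g v) = v := by
      have := ρ.op_inv_mul g
      exact congrArg (fun T : E →L[ℂ] E => T v) this
    conv_lhs => rw [← h1, ← (Module.finBasis ℂ E).sum_repr (ρ.op g v)]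
    rw [map_sum, map_sum, map_sum]
    refine Finset.sum_congr rfl fun i _ => ?_
    rw [map_smul, map_smul, map_smul]
    rfl
  have h3 := congrArg (fun T : L1 G →L[ℂ] X => T f) h
  simp only [L, R, sum_apply, ContinuousLinearMap.comp_apply,
      ContinuousLinearMap.apply_apply] at h3
  exact h3

theorem aug_wt2 (ρ : BRep G E) [CompleteSpace E] (f : L1 G) (v : E)
    (i : Fin (Module.finrank ℂ E)) :
    aug (wt2 ρ v i f) = (Module.finBasis ℂ E).coord i (ρ.act f v) := by
  let c : E →L[ℂ] ℂ := LinearMap.toContinuousLinearMap ((Module.finBasis ℂ E).coord i)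
  have h : (aug.comp (wt2 ρ v i) : L1 G →L[ℂ] ℂ) =
      c.comp ((ContinuousLinearMap.apply ℂ E v).comp ρ.act) := by
    apply clm_ext
    intro g
    simp only [ContinuousLinearMap.comp_apply, wt2_del, map_smul, aug_del,
      ContinuousLinearMap.apply_apply, BRep.act_del, smul_eq_mul, mul_one]
    rfl
  exact congrArg (fun T : L1 G →L[ℂ] ℂ => T f) h

end Untwist

section Reg

variable {G : Type u} [Group G]

/-- The left regular representation. -/
noncomputable def regRep (G : Type u) [Group G] : BRep G (L1 G) where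
  op g := mulL (del g)
  op_one := by
    apply ContinuousLinearMap.ext
    intro x
    exact one_mul' x
  op_mul g h := by
    apply ContinuousLinearMap.ext
    intro x
    show del (g * h) * x = del g * (del h * x)
    rw [← mul_assoc, del_mul_del]
  bdd := by
    refine ⟨1, fun g => ?_⟩
    refine ContinuousLinearMap.opNorm_le_bound _ zero_le_one fun x => ?_
    refine (norm_mul_le' (del g) x).trans ?_
    rw [norm_del]

theorem regRep_act (f a : L1 G) : (regRep G).act f a = f * a := by
  have h : (regRep G).act = (mulL : L1 G →L[ℂ] L1 G →L[ℂ] L1 G) := by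
    apply clm_ext
    intro g
    rw [BRep.act_del]
    rfl
  rw [h]
  rfl

end Reg

section Ideal

variable {G : Type u} [Group G]
  {B : Type v} [NormedAddCommGroup B] [NormedSpace ℂ B] [FiniteDimensional ℂ B] [CompleteSpace B]

theorem ideal_abs [Countable G] (q : L1 G →L[ℂ] B) (hq : Function.Surjective q)
    (I : Submodule ℂ (L1 G)) (hI : ∀ a, a ∈ I ↔ q a = 0)
    (hl : ∀ a, ∀ i ∈ I, a * i ∈ I) (hr : ∀ a, ∀ i ∈ I, i * a ∈ I) {x : L1 G} (hx : x ∈ I) :
    x ∈ Submodule.span ℂ {z | ∃ a ∈ I, ∃ b ∈ I, z = a * b} := by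
  classical
  by_contra hne
  obtain ⟨Λ, hΛx, hΛ⟩ := Submodule.exists_le_ker_of_notMem hne
  apply hΛx
  have hΛ2 : ∀ a ∈ I, ∀ b ∈ I, Λ (a * b) = 0 := fun a ha b hb =>
    hΛ (Submodule.subset_span ⟨a, ha, b, hb, rfl⟩)
  obtain ⟨μ, hμ, hμ1, hfull⟩ := exists_mu G
  -- a linear section
  obtain ⟨s0, hs0⟩ := (q : L1 G →ₗ[ℂ] B).exists_rightInverse_of_surjective
    (LinearMap.range_eq_top.2 hq)
  let s : B →L[ℂ] L1 G := LinearMap.toContinuousLinearMap s0
  have hs : ∀ b, q (s b) = b := fun b => congrArg (fun T : B →ₗ[ℂ] B => T b) hs0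
  have hsI : ∀ a, s (q a) - a ∈ I := by
    intro a
    rw [hI, map_sub, hs, sub_self]
  have hqI : ∀ a b, a - b ∈ I → q a = q b := by
    intro a b h
    rw [hI, map_sub, sub_eq_zero] at h
    exact h
  have hql : ∀ f a, q (f * s (q a)) = q (f * a) := by
    intro f a
    apply hqI
    rw [← mul_sub]
    exact hl _ _ (hsI a)
  have hqr : ∀ f a, q (s (q a) * f) = q (a * f) := by
    intro f a
    apply hqI
    rw [← sub_mul]
    exact hr _ _ (hsI a)
  -- the left representation on B
  let lB : BRep G B :=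
    { op := fun g => q.comp ((mulL (del g)).comp s)
      op_one := by
        apply ContinuousLinearMap.ext
        intro b
        show q (del 1 * s b) = b
        rw [← one_def, one_mul, hs]
      op_mul := fun g h => by
        apply ContinuousLinearMap.ext
        intro b
        show q (del (g * h) * s b) = q (del g * s (q (del h * s b)))
        rw [hql, ← mul_assoc, del_mul_del]
      bdd := by
        refine ⟨‖q‖ * ‖s‖, fun g => ?_⟩
        refine (ContinuousLinearMap.opNorm_comp_le _ _).trans ?_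
        refine mul_le_mul_of_nonneg_left ?_ (norm_nonneg _)
        refine ContinuousLinearMap.opNorm_le_bound _ (norm_nonneg _) fun b => ?_
        refine (norm_mul_le' (del g) (s b)).trans ?_
        rw [norm_del, one_mul]
        exact s.le_opNorm b }
  have hlB : ∀ g a, lB.op g (q a) = q (del g * a) := fun g a => hql (del g) a
  have hlBact : ∀ f a, lB.act f (q a) = q (f * a) := by
    intro f a
    have h : ((ContinuousLinearMap.apply ℂ B (q a)).comp lB.act : L1 G →L[ℂ] B) =
        q.comp (mulL.flip a) := by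
      apply clm_ext
      intro g
      show lB.act (del g) (q a) = q (del g * a)
      rw [BRep.act_del, hlB]
    exact congrArg (fun T : L1 G →L[ℂ] B => T f) h
  -- the representation on the dual of B by right multiplication
  let rB : G → (B →L[ℂ] B) := fun g => q.comp ((mulL.flip (del g)).comp s)
  have hrB : ∀ g a, rB g (q a) = q (a * del g) := fun g a => hqr (del g) a
  have hrBn : ∀ g, ‖rB g‖ ≤ ‖q‖ * ‖s‖ := by
    intro g
    refine (ContinuousLinearMap.opNorm_comp_le _ _).trans ?_
    refine mul_le_mul_of_nonneg_left ?_ (norm_nonneg _)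
    refine ContinuousLinearMap.opNorm_le_bound _ (norm_nonneg _) fun b => ?_
    refine (norm_mul_le' (s b) (del g)).trans ?_
    rw [norm_del, mul_one]
    exact s.le_opNorm b
  let τ : BRep G (B →L[ℂ] ℂ) :=
    { op := fun g => (ContinuousLinearMap.compL ℂ B B ℂ).flip (rB g)
      op_one := by
        apply ContinuousLinearMap.ext
        intro n
        apply ContinuousLinearMap.ext
        intro b
        obtain ⟨a, rfl⟩ := hq b
        show n (rB 1 (q a)) = n (q a)
        rw [hrB, ← one_def, mul_one]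
      op_mul := fun g h => by
        apply ContinuousLinearMap.ext
        intro n
        apply ContinuousLinearMap.ext
        intro b
        obtain ⟨a, rfl⟩ := hq b
        show n (rB (g * h) (q a)) = n (rB h (rB g (q a)))
        rw [hrB, hrB, hrB, mul_assoc, del_mul_del]
      bdd := by
        refine ⟨‖q‖ * ‖s‖, fun g => ?_⟩
        refine ContinuousLinearMap.opNorm_le_bound _ (by positivity) fun n => ?_
        refine (ContinuousLinearMap.opNorm_comp_le n (rB g)).trans ?_
        rw [mul_comm]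
        exact mul_le_mul_of_nonneg_right (hrBn g) (norm_nonneg _) }
  have hτ : ∀ g n a, τ.op g n (q a) = n (q (a * del g)) := by
    intro g n a
    show n (rB g (q a)) = _
    rw [hrB]
  have hτact : ∀ f n a, τ.act f n (q a) = n (q (a * f)) := by
    intro f n a
    have h : ((ContinuousLinearMap.apply ℂ ℂ (q a)).comp
        ((ContinuousLinearMap.apply ℂ (B →L[ℂ] ℂ) n).comp τ.act) : L1 G →L[ℂ] ℂ) =
        n.comp (q.comp (mulL a)) := by
      apply clm_ext
      intro g
      show τ.act (del g) n (q a) = n (q (a * del g))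
      rw [BRep.act_del, hτ]
    exact congrArg (fun T : L1 G →L[ℂ] ℂ => T f) h
  have hτI : ∀ f ∈ I, ∀ n, τ.act f n = 0 := by
    intro f hf n
    apply ContinuousLinearMap.ext
    intro b
    obtain ⟨a, rfl⟩ := hq b
    rw [hτact, (hI _).1 (hl a f hf), map_zero]
    rfl
  -- the discontinuous module map
  let T0 : L1 G → (B →ₗ[ℂ] ℂ) := fun a =>
    Λ ∘ₗ ((mulL.flip a : L1 G →L[ℂ] L1 G) : L1 G →ₗ[ℂ] L1 G) ∘ₗ s0
  have hT0 : ∀ a b, T0 a b = Λ (s b * a) := fun a b => rfl
  let T : L1 G →ₗ[ℂ] (B →L[ℂ] ℂ) :=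
    { toFun := fun a => LinearMap.toContinuousLinearMap (T0 a)
      map_add' := fun a a' => by
        apply ContinuousLinearMap.ext
        intro b
        show T0 (a + a') b = T0 a b + T0 a' b
        rw [hT0, hT0, hT0, mul_add, map_add]
      map_smul' := fun c a => by
        apply ContinuousLinearMap.ext
        intro b
        show T0 (c • a) b = c • T0 a b
        rw [hT0, hT0, mul_smul_comm, map_smul] }
  have hTb : ∀ a b, T a b = Λ (s b * a) := fun a b => rfl
  have hTmod : ∀ f, ∀ i ∈ I, T (f * i) = τ.act f (T i) := by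
    intro f i hi
    apply ContinuousLinearMap.ext
    intro b
    obtain ⟨a, rfl⟩ := hq b
    rw [hτact, hTb, hTb, ← sub_eq_zero, ← map_sub, ← mul_assoc, ← sub_mul]
    refine hΛ2 _ ?_ _ hi
    rw [hI, map_sub, hs, hqr, sub_self]
  -- the twist
  let SS : L1 G → (B →L[ℂ] L1 G) := fun f => (homRep lB (regRep G)).act f s
  have hSq : ∀ f b, q (SS f b) = aug f • b := by
    intro f b
    have h : (q.comp ((ContinuousLinearMap.apply ℂ (L1 G) b).comp
        ((ContinuousLinearMap.apply ℂ (B →L[ℂ] L1 G) s).comp (homRep lB (regRep G)).act)) :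
        L1 G →L[ℂ] B) = (ContinuousLinearMap.smulRightL ℂ (L1 G) B aug) b := by
      apply clm_ext
      intro g
      show q ((homRep lB (regRep G)).act (del g) s b) = aug (del g) • b
      rw [BRep.act_del, homRep_op, aug_del, one_smul]
      show q (del g * s (lB.op g⁻¹ b)) = b
      obtain ⟨a, rfl⟩ := hq b
      rw [hlB, hql, ← mul_assoc, del_mul_del, mul_inv_cancel, ← one_def, one_mul]
    exact congrArg (fun T : L1 G →L[ℂ] B => T f) h
  have hSI : ∀ f, aug f = 0 → ∀ b, SS f b ∈ I := by
    intro f hf b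
    rw [hI, hSq, hf, zero_smul]
  let ψ : L1 G →ₗ[ℂ] (B →L[ℂ] (B →L[ℂ] ℂ)) :=
    { toFun := fun f => LinearMap.toContinuousLinearMap (T ∘ₗ (SS f : B →ₗ[ℂ] L1 G))
      map_add' := fun f f' => by
        apply ContinuousLinearMap.ext
        intro b
        show T (SS (f + f') b) = T (SS f b) + T (SS f' b)
        rw [← map_add]
        congr 1
        show (homRep lB (regRep G)).act (f + f') s b = _
        rw [map_add]
        rfl
      map_smul' := fun c f => by
        apply ContinuousLinearMap.ext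
        intro b
        show T (SS (c • f) b) = c • T (SS f b)
        rw [← map_smul]
        congr 1
        show (homRep lB (regRep G)).act (c • f) s b = _
        rw [map_smul]
        rfl }
  have hψb : ∀ f b, ψ f b = T (SS f b) := fun f b => rfl
  have hψ : ∀ f h : L1 G, aug h = 0 → ψ (f * h) = (homRep lB τ).act f (ψ h) := by
    intro f h hh
    apply ContinuousLinearMap.ext
    intro b
    have h1 := lemT lB (regRep G) τ T (SS h) (fun f v => by
      rw [regRep_act]
      exact hTmod f _ (hSI h hh v)) f b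
    rw [hψb]
    have h2 : SS (f * h) = (homRep lB (regRep G)).act f (SS h) := by
      show (homRep lB (regRep G)).act (f * h) s = _
      rw [BRep.act_mul]
      rfl
    rw [h2, h1]
    rfl
  obtain ⟨ξ, hξ⟩ := mainMod hμ hμ1 hfull (homRep lB τ) ψ hψ
  -- conclusion
  have hlBI : ∀ f ∈ I, ∀ b, lB.act f b = 0 := by
    intro f hf b
    obtain ⟨a, rfl⟩ := hq b
    rw [hlBact]
    exact (hI _).1 (hr a f hf)
  have hkey : ∀ f ∈ I, ∀ b, T (f * s b) = 0 := by
    intro f hf b
    have h1 : f * s b = ∑ i, SS (wt2 lB b i f) (Module.finBasis ℂ B i) := by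
      rw [← regRep_act]
      exact untwist lB (regRep G) f s b
    rw [h1, map_sum]
    have h2 : ∀ i, T (SS (wt2 lB b i f) (Module.finBasis ℂ B i)) =
        (homRep lB τ).act (wt2 lB b i f) ξ (Module.finBasis ℂ B i) := by
      intro i
      rw [← hψb, hξ]
      rw [aug_wt2, hlBI f hf b, map_zero]
    rw [Finset.sum_congr rfl fun i _ => h2 i, ← untwist lB τ f ξ b]
    exact hτI f hf _
  have h1 := hkey x hx (q 1)
  have h2 : x * s (q 1) = x + x * (s (q 1) - 1) := by rw [mul_sub, mul_one]; abel
  rw [h2, map_add, hTmod x _ (hsI 1), hτI x hx, add_zero] at h1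
  have h3 : T x (q 1) = 0 := by rw [h1]; rfl
  rw [hTb] at h3
  have h4 : s (q 1) * x = x + (s (q 1) - 1) * x := by rw [sub_mul, one_mul]; abel
  rw [h4, map_add, hΛ2 _ (hsI 1) _ hx, add_zero] at h3
  exact h3

/-- **Main theorem.** Every closed two-sided ideal of finite codimension in `ℓ¹(G)`, `G` countable,
is the span of the products of pairs of its elements. -/
theorem ideal_sq [Countable G] (I : Submodule ℂ (L1 G)) [hcl : IsClosed (I : Set (L1 G))]
    [FiniteDimensional ℂ (L1 G ⧸ I)]
    (hl : ∀ a, ∀ i ∈ I, a * i ∈ I) (hr : ∀ a, ∀ i ∈ I, i * a ∈ I) :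
    Submodule.span ℂ {z | ∃ a ∈ I, ∃ b ∈ I, z = a * b} = I := by
  apply le_antisymm
  · rw [Submodule.span_le]
    rintro z ⟨a, _, b, hb, rfl⟩
    exact hl a b hb
  · intro x hx
    have : CompleteSpace (L1 G ⧸ I) := inferInstance
    refine ideal_abs (B := L1 G ⧸ I) I.mkQL (Submodule.mkQ_surjective I) I (fun a => ?_) hl hr hx
    show a ∈ I ↔ I.mkQ a = 0
    rw [Submodule.mkQ_apply, Submodule.Quotient.mk_eq_zero]

end Ideal

end Run7.h939
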