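import Mathlib

set_option autoImplicit false
open scoped ENNReal Topology
open Filter

namespace Run7.h939

universe u v

/-- The Banach space `ℓ¹(G)`. -/
def L1 (G : Type u) : Type u := lp (fun _ : G => ℂ) 1

noncomputable instance L1.instNACG (G : Type u) : NormedAddCommGroup (L1 G) :=
  inferInstanceAs (NormedAddCommGroup (lp (fun _ : G => ℂ) 1))

noncomputable instance L1.instNS (G : Type u) : NormedSpace ℂ (L1 G) :=
  inferInstanceAs (NormedSpace ℂ (lp (fun _ : G => ℂ) 1))

instance L1.instCS (G : Type u) : CompleteSpace (L1 G) :=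
  inferInstanceAs (CompleteSpace (lp (fun _ : G => ℂ) 1))

section Basic

variable {G : Type u}

/-- The coefficient of `f` at `x`. -/
noncomputable def cf (f : L1 G) (x : G) : ℂ := (show lp (fun _ : G => ℂ) 1 from f) x

open Classical in
/-- The point mass at `x`. -/
noncomputable def del (x : G) : L1 G := (lp.single 1 x (1 : ℂ) : lp (fun _ : G => ℂ) 1)

theorem cf_ext {f g : L1 G} (h : ∀ x, cf f x = cf g x) : f = g :=
  lp.ext (funext h)

theorem cf_add (f g : L1 G) (x : G) : cf (f + g) x = cf f x + cf g x := rfl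

theorem cf_smul (c : ℂ) (f : L1 G) (x : G) : cf (c • f) x = c * cf f x := rfl

theorem cf_zero (x : G) : cf (0 : L1 G) x = 0 := rfl

theorem cf_sub (f g : L1 G) (x : G) : cf (f - g) x = cf f x - cf g x := rfl

open Classical in
theorem cf_del (x y : G) : cf (del x) y = if y = x then 1 else 0 := by
  show (Pi.single x (1 : ℂ) : G → ℂ) y = _
  rw [Pi.single_apply]

theorem one_toReal_pos : 0 < (1 : ℝ≥0∞).toReal := by norm_num

theorem summable_cf (f : L1 G) : Summable (fun g => ‖cf f g‖) := by
  have h := (lp.memℓp (show lp (fun _ : G => ℂ) 1 from f)).summable one_toReal_pos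
  simp only [ENNReal.toReal_one, Real.rpow_one] at h
  exact h

theorem norm_eq (f : L1 G) : ‖f‖ = ∑' g, ‖cf f g‖ := by
  have h := lp.norm_eq_tsum_rpow one_toReal_pos (show lp (fun _ : G => ℂ) 1 from f)
  simp only [ENNReal.toReal_one, Real.rpow_one, one_div, inv_one] at h
  exact h

theorem norm_del (x : G) : ‖del x‖ = 1 := by
  classical
  have h := lp.norm_single (E := fun _ : G => ℂ) (p := 1) one_pos x (1 : ℂ)
  rw [norm_one] at h
  rw [← h]
  show ‖(lp.single 1 x (1 : ℂ) : lp (fun _ : G => ℂ) 1)‖ = _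
  congr

theorem norm_cf_le (f : L1 G) (x : G) : ‖cf f x‖ ≤ ‖f‖ :=
  lp.norm_apply_le_norm one_ne_zero _ x

/-- A linear map determined by continuity in each coefficient. -/
noncomputable def cfL (x : G) : L1 G →L[ℂ] ℂ :=
  LinearMap.mkContinuous
    { toFun := fun f => cf f x
      map_add' := fun _ _ => rfl
      map_smul' := fun _ _ => rfl } 1 (fun f => by
        rw [one_mul]; exact norm_cf_le f x)

theorem cfL_apply (x : G) (f : L1 G) : cfL x f = cf f x := rfl

theorem hasSum_del (f : L1 G) : HasSum (fun g => cf f g • del g) f := by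
  classical
  have h := lp.hasSum_single (E := fun _ : G => ℂ) (p := 1) ENNReal.one_ne_top f
  have h2 : (fun g => cf f g • del g) =
      fun g => (show L1 G from (lp.single 1 g (cf f g) : lp (fun _ : G => ℂ) 1)) := by
    funext g
    apply cf_ext
    intro x
    rw [cf_smul, cf_del]
    show _ = (Pi.single g (cf f g) : G → ℂ) x
    rw [Pi.single_apply]
    by_cases hx : x = g
    · rw [if_pos hx, if_pos hx, mul_one]
    · rw [if_neg hx, if_neg hx, mul_zero]
  rw [h2]
  exact h

theorem clm_ext {X : Type v} [NormedAddCommGroup X] [NormedSpace ℂ X]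
    {S T : L1 G →L[ℂ] X} (h : ∀ g, S (del g) = T (del g)) : S = T := by
  apply ContinuousLinearMap.ext
  intro f
  have h1 := (hasSum_del f).mapL S
  have h2 := (hasSum_del f).mapL T
  refine h1.unique ?_
  convert h2 using 2 with g
  rw [map_smul, map_smul, h g]

end Basic

section Lift

variable {G : Type u} {X : Type v} [NormedAddCommGroup X] [NormedSpace ℂ X]

/-- A bounded family. -/
def Bdd (v : G → X) : Prop := ∃ C : ℝ, ∀ g, ‖v g‖ ≤ C

omit [NormedSpace ℂ X] in
theorem bdd_of {v : G → X} {C : ℝ} (h : ∀ g, ‖v g‖ ≤ C) : Bdd v := ⟨C, h⟩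

theorem lift_summable [CompleteSpace X] {v : G → X} (hv : Bdd v) (f : L1 G) :
    Summable (fun g => cf f g • v g) := by
  obtain ⟨C, hC⟩ := hv
  refine Summable.of_norm_bounded ((summable_cf f).mul_right C) fun g => ?_
  rw [norm_smul]
  exact mul_le_mul_of_nonneg_left (hC g) (norm_nonneg _)

theorem lift_bound {v : G → X} {C : ℝ} (hC : ∀ g, ‖v g‖ ≤ C) (f : L1 G) :
    ‖∑' g, cf f g • v g‖ ≤ C * ‖f‖ := by
  have h1 : Summable (fun g => ‖cf f g‖ * C) := (summable_cf f).mul_right C
  refine (tsum_of_norm_bounded h1.hasSum fun g => ?_).trans ?_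
  · rw [norm_smul]
    exact mul_le_mul_of_nonneg_left (hC g) (norm_nonneg _)
  · rw [tsum_mul_right, norm_eq, mul_comm]

/-- The bounded linear map `f ↦ ∑ f(g) v(g)`. -/
noncomputable def lift [CompleteSpace X] (v : G → X) (hv : Bdd v) : L1 G →L[ℂ] X :=
  LinearMap.mkContinuous
    { toFun := fun f => ∑' g, cf f g • v g
      map_add' := fun f f' => by
        rw [← (lift_summable hv f).tsum_add (lift_summable hv f')]
        refine tsum_congr fun g => ?_
        rw [cf_add, add_smul]
      map_smul' := fun c f => by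
        rw [RingHom.id_apply, ← tsum_const_smul'']
        refine tsum_congr fun g => ?_
        rw [cf_smul, mul_smul] } hv.choose (fun f => lift_bound hv.choose_spec f)

theorem lift_apply [CompleteSpace X] (v : G → X) (hv : Bdd v) (f : L1 G) :
    lift v hv f = ∑' g, cf f g • v g := rfl

theorem norm_lift_le [CompleteSpace X] (v : G → X) (hv : Bdd v) {C : ℝ} (hC : ∀ g, ‖v g‖ ≤ C)
    (f : L1 G) : ‖lift v hv f‖ ≤ C * ‖f‖ := lift_bound hC f

theorem opNorm_lift_le [CompleteSpace X] (v : G → X) (hv : Bdd v) {C : ℝ} (h0 : 0 ≤ C)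
    (hC : ∀ g, ‖v g‖ ≤ C) : ‖lift v hv‖ ≤ C :=
  ContinuousLinearMap.opNorm_le_bound _ h0 (norm_lift_le v hv hC)

theorem lift_del [CompleteSpace X] (v : G → X) (hv : Bdd v) (x : G) :
    lift v hv (del x) = v x := by
  classical
  rw [lift_apply, tsum_eq_single x]
  · rw [cf_del, if_pos rfl, one_smul]
  · intro g hg
    rw [cf_del, if_neg hg, zero_smul]

end Lift

section Ring

variable {G : Type u} [Group G]

omit [Group G] in
theorem bdd_del {ι : Type v} (w : ι → G) : Bdd (fun x => del (w x)) :=
  bdd_of (C := 1) fun _ => (norm_del _).le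

/-- Left multiplication by a point mass. -/
noncomputable def tl (x : G) : L1 G →L[ℂ] L1 G := lift (fun y => del (x * y)) (bdd_del _)

theorem norm_tl_le (x : G) : ‖tl x‖ ≤ 1 :=
  opNorm_lift_le _ _ zero_le_one fun _ => (norm_del _).le

/-- The multiplication of `ℓ¹(G)`. -/
noncomputable def mulL : L1 G →L[ℂ] L1 G →L[ℂ] L1 G := lift (fun x => tl x) (bdd_of norm_tl_le)

theorem norm_mulL_le : ‖(mulL : L1 G →L[ℂ] L1 G →L[ℂ] L1 G)‖ ≤ 1 :=
  opNorm_lift_le _ _ zero_le_one norm_tl_le

theorem mulL_del (x y : G) : mulL (del x) (del y) = del (x * y) := by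
  rw [mulL, lift_del, tl, lift_del]

noncomputable instance : Mul (L1 G) := ⟨fun f g => mulL f g⟩

noncomputable instance : One (L1 G) := ⟨del 1⟩

theorem mul_def (f g : L1 G) : f * g = mulL f g := rfl

theorem one_def : (1 : L1 G) = del 1 := rfl

theorem del_mul_del (x y : G) : (del x : L1 G) * del y = del (x * y) := mulL_del x y

theorem mul_assoc' (f g h : L1 G) : f * g * h = f * (g * h) := by
  have h3 : ∀ x y, (mulL (mulL (del x) (del y)) : L1 G →L[ℂ] L1 G) =
      (mulL (del x)).comp (mulL (del y)) := by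
    intro x y
    apply clm_ext
    intro z
    rw [ContinuousLinearMap.comp_apply, mulL_del, mulL_del, mulL_del, mulL_del, mul_assoc]
  have h2 : ∀ x, (mulL.flip h).comp (mulL (del x)) = (mulL (del x)).comp (mulL.flip h) := by
    intro x
    apply clm_ext
    intro y
    have := congrArg (fun T : L1 G →L[ℂ] L1 G => T h) (h3 x y)
    simpa using this
  have h1 : (mulL.flip h).comp (mulL.flip g) = (mulL.flip (mulL g h) : L1 G →L[ℂ] L1 G) := by
    apply clm_ext
    intro x
    have := congrArg (fun T : L1 G →L[ℂ] L1 G => T g) (h2 x)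
    simpa using this
  have := congrArg (fun T : L1 G →L[ℂ] L1 G => T f) h1
  simpa [mul_def] using this

theorem one_mul' (f : L1 G) : 1 * f = f := by
  have h : (mulL (del 1) : L1 G →L[ℂ] L1 G) = ContinuousLinearMap.id ℂ _ := by
    apply clm_ext
    intro x
    rw [mulL_del, one_mul]
    rfl
  have := congrArg (fun T : L1 G →L[ℂ] L1 G => T f) h
  simpa [mul_def, one_def] using this

theorem mul_one' (f : L1 G) : f * 1 = f := by
  have h : (mulL.flip (del 1) : L1 G →L[ℂ] L1 G) = ContinuousLinearMap.id ℂ _ := by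
    apply clm_ext
    intro x
    rw [ContinuousLinearMap.flip_apply, mulL_del, mul_one]
    rfl
  have := congrArg (fun T : L1 G →L[ℂ] L1 G => T f) h
  simpa [mul_def, one_def] using this

theorem norm_mul_le' (f g : L1 G) : ‖f * g‖ ≤ ‖f‖ * ‖g‖ := by
  rw [mul_def]
  refine (mulL.le_opNorm₂ f g).trans ?_
  have h1 := norm_mulL_le (G := G)
  have : ‖(mulL : L1 G →L[ℂ] L1 G →L[ℂ] L1 G)‖ * ‖f‖ * ‖g‖ ≤ 1 * ‖f‖ * ‖g‖ := by gcongr
  simpa using this

noncomputable instance instNR : NormedRing (L1 G) :=
  { L1.instNACG G with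
    mul := fun f g => mulL f g
    one := del 1
    left_distrib := fun f g h => by
      show mulL f (g + h) = mulL f g + mulL f h
      rw [map_add]
    right_distrib := fun f g h => by
      show mulL (f + g) h = mulL f h + mulL g h
      rw [map_add, add_apply]
    zero_mul := fun f => by
      show mulL 0 f = 0
      rw [map_zero, zero_apply]
    mul_zero := fun f => by
      show mulL f 0 = 0
      rw [map_zero]
    mul_assoc := mul_assoc'
    one_mul := one_mul'
    mul_one := mul_one'
    norm_mul_le := norm_mul_le' }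

instance instNOC : NormOneClass (L1 G) := ⟨norm_del 1⟩

noncomputable instance instAlg : Algebra ℂ (L1 G) :=
  Algebra.ofModule
    (fun r x y => by
      show mulL (r • x) y = r • mulL x y
      rw [map_smul, smul_apply])
    (fun r x y => by
      show mulL x (r • y) = r • mulL x y
      rw [map_smul])

noncomputable instance instNA : NormedAlgebra ℂ (L1 G) :=
  { instAlg with
    norm_smul_le := fun r x => norm_smul_le r x }

example : (@NormedAlgebra.toNormedSpace ℂ (L1 G) _ _ instNA) = L1.instNS G := rfl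

/-- The augmentation. -/
noncomputable def aug : L1 G →L[ℂ] ℂ := lift (fun _ => (1 : ℂ)) (bdd_of (C := 1) fun _ => by simp)

theorem aug_del (x : G) : aug (del x : L1 G) = 1 := lift_del _ _ x

theorem aug_mul (f g : L1 G) : aug (f * g) = aug f * aug g := by
  have h2 : ∀ x : G, (aug : L1 G →L[ℂ] ℂ).comp (mulL (del x)) = (aug : L1 G →L[ℂ] ℂ) := by
    intro x
    apply clm_ext
    intro y
    rw [ContinuousLinearMap.comp_apply, mulL_del, aug_del, aug_del]
  have h1 : ((aug : L1 G →L[ℂ] ℂ).comp (mulL.flip g)) = (aug g) • (aug : L1 G →L[ℂ] ℂ) := by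
    apply clm_ext
    intro x
    have := congrArg (fun T : L1 G →L[ℂ] ℂ => T g) (h2 x)
    simpa [aug_del] using this
  have := congrArg (fun T : L1 G →L[ℂ] ℂ => T f) h1
  simpa [mul_def, mul_comm] using this

theorem aug_one : aug (1 : L1 G) = 1 := aug_del 1

theorem aug_eq (f : L1 G) : aug f = ∑' x, cf f x := by
  rw [aug, lift_apply]
  exact tsum_congr fun g => by rw [smul_eq_mul, mul_one]

theorem norm_aug_le (f : L1 G) : ‖aug f‖ ≤ ‖f‖ := by
  have := norm_lift_le (G := G) (fun _ => (1 : ℂ)) (bdd_of (C := 1) fun _ => by simp) (C := 1)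
    (fun _ => by simp) f
  rwa [one_mul] at this

/-- The coefficients of a product. -/
theorem cf_mul (f g : L1 G) (x : G) : cf (f * g) x = ∑' y, cf f y * cf g (y⁻¹ * x) := by
  have h2 : ∀ y : G, (cfL x).comp (mulL (del y)) = (cfL (y⁻¹ * x) : L1 G →L[ℂ] ℂ) := by
    intro y
    apply clm_ext
    intro z
    classical
    rw [ContinuousLinearMap.comp_apply, mulL_del, cfL_apply, cfL_apply, cf_del, cf_del]
    congr 1
    rw [inv_mul_eq_iff_eq_mul]
  have h1 : HasSum (fun y => cf f y • del y) f := hasSum_del f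
  have h3 := h1.mapL ((cfL x).comp (mulL.flip g))
  have h4 : ((cfL x).comp (mulL.flip g)) f = cf (f * g) x := rfl
  rw [h4] at h3
  rw [← h3.tsum_eq]
  refine tsum_congr fun y => ?_
  rw [map_smul]
  have := congrArg (fun T : L1 G →L[ℂ] ℂ => T g) (h2 y)
  simp only [ContinuousLinearMap.comp_apply, cfL_apply] at this
  rw [ContinuousLinearMap.comp_apply, ContinuousLinearMap.flip_apply, cfL_apply, this, smul_eq_mul]

end Ring

end Run7.h939
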