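import Pool.Agent.Run7.h939.Zthm2

set_option autoImplicit false
open scoped ENNReal Topology
open Filter

namespace Run7.h939

universe u v w z

section Main

variable {G : Type u} [Group G] {E : Type v} [NormedAddCommGroup E] [NormedSpace ℂ E]
  [FiniteDimensional ℂ E] [CompleteSpace E]

/-- Vectors fixed by `μ` are fixed by `G`. -/
theorem fixed {μ : L1 G} (hμ : Pos μ) (hμ1 : aug μ = 1) (hfull : ∀ g, 0 < ‖cf μ g‖)
    (ρ : BRep G E) {v : E} (hv : ρ.act (1 - μ) v = 0) {h : L1 G} (hh : aug h = 0) :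
    ρ.act h v = 0 := by
  have hμv : ρ.act μ v = v := by
    rw [map_sub, ρ.act_one, sub_apply, sub_eq_zero] at hv
    exact hv.symm
  have hpow : ∀ k, ρ.act (μ ^ k) v = v := by
    intro k
    induction k with
    | zero => rw [pow_zero, ρ.act_one]; rfl
    | succ k ih =>
      rw [pow_succ, ρ.act_mul]
      show ρ.act (μ ^ k) (ρ.act μ v) = v
      rw [hμv, ih]
  have havg : ∀ m, ρ.act (avg μ m) v = v := by
    intro m
    obtain ⟨B, hB, hB2⟩ := one_sub_avg μ m
    have hc : Commute (1 - μ) B := (Commute.one_left B).sub_left hB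
    have h1 : ρ.act (1 - avg μ m) v = 0 := by
      rw [hB2, hc.eq, ρ.act_mul]
      show ρ.act B (ρ.act (1 - μ) v) = 0
      rw [hv, map_zero]
    rw [map_sub, ρ.act_one, sub_apply, sub_eq_zero] at h1
    exact h1.symm
  let ψ : L1 G →ₗ[ℂ] E := ((ContinuousLinearMap.apply ℂ E v).comp ρ.act : L1 G →L[ℂ] E)
  refine thmZ hμ hμ1 hfull ρ ψ (fun f h _ => ?_) (fun a ha => ?_) hh
  · show ρ.act (f * h) v = ρ.act f (ρ.act h v)
    rw [ρ.act_mul]
    rfl
  · show ρ.act a v = 0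
    have h1 : ∀ m, ρ.act (a * avg μ m) v = ρ.act a v := by
      intro m
      rw [ρ.act_mul]
      show ρ.act a (ρ.act (avg μ m) v) = _
      rw [havg m]
    have h2 : Tendsto (fun m => ρ.act (a * avg μ m) v) atTop (𝓝 (ρ.act 0 v)) := by
      have hc : Continuous (fun z : L1 G => ρ.act z v) :=
        ((ContinuousLinearMap.apply ℂ E v).comp ρ.act).continuous
      exact (hc.tendsto 0).comp ha
    simp only [h1] at h2
    have h3 := tendsto_nhds_unique tendsto_const_nhds h2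
    rw [h3, map_zero, zero_apply]

/-- Every module homomorphism from the augmentation ideal to a finite-dimensional bounded
representation is given by a vector. -/
theorem mainMod {μ : L1 G} (hμ : Pos μ) (hμ1 : aug μ = 1) (hfull : ∀ g, 0 < ‖cf μ g‖)
    (ρ : BRep G E) (ψ : L1 G →ₗ[ℂ] E)
    (hψ : ∀ f h : L1 G, aug h = 0 → ψ (f * h) = ρ.act f (ψ h)) :
    ∃ ξ : E, ∀ h, aug h = 0 → ψ h = ρ.act h ξ := by
  have hpow : ∀ k, ‖μ ^ k‖ ≤ 1 := fun k => (hμ.norm_pow hμ1 k).le
  -- step (a)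
  have hmul1 : (mulL 1 : L1 G →L[ℂ] L1 G) = 1 := by
    apply ContinuousLinearMap.ext
    intro x
    exact one_mul' x
  have hmulmul : ∀ a b : L1 G, (mulL (a * b) : L1 G →L[ℂ] L1 G) = mulL a * mulL b := by
    intro a b
    apply ContinuousLinearMap.ext
    intro x
    exact mul_assoc' a b x
  obtain ⟨p, y, _, hp0, hpy, hy0, _⟩ := factor (X := L1 G) hpow (Θ := mulL) hmul1
    (fun a b _ => hmulmul a b) (x := 1 - μ) (tendsto_avg_mul_one_sub hpow)
  have hpy' : p * y = 1 - μ := hpy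
  have haugy : aug y = 0 := aug_eq_zero_of_left hμ1 hy0
  set w := ψ (1 - μ) with hw
  have hw2 : w = ρ.act p (ψ y) := by
    rw [hw, ← hpy']
    exact hψ p y haugy
  have hlim : Tendsto (fun m => ρ.act (avg μ m) w) atTop (𝓝 0) := by
    have h1 : ∀ m, ρ.act (avg μ m) w = ρ.act (avg μ m * p) (ψ y) := by
      intro m
      rw [hw2, ρ.act_mul]
      rfl
    simp only [h1]
    have hc : Continuous (fun z : L1 G => ρ.act z (ψ y)) :=
      ((ContinuousLinearMap.apply ℂ E (ψ y)).comp ρ.act).continuous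
    have h2 := (hc.tendsto 0).comp hp0
    rw [map_zero, zero_apply] at h2
    exact h2
  let Φ : E →ₗ[ℂ] E := (ρ.act (1 - μ) : E →L[ℂ] E)
  have hR : IsClosed ((LinearMap.range Φ : Submodule ℂ E) : Set E) :=
    Submodule.closed_of_finiteDimensional _
  have hwR : w ∈ LinearMap.range Φ := by
    have h1 : Tendsto (fun m => w - ρ.act (avg μ m) w) atTop (𝓝 w) := by
      have := hlim.const_sub w
      rwa [sub_zero] at this
    refine hR.mem_of_tendsto h1 (Eventually.of_forall fun m => ?_)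
    obtain ⟨B, _, hB2⟩ := one_sub_avg μ m
    refine ⟨ρ.act B w, ?_⟩
    show ρ.act (1 - μ) (ρ.act B w) = w - ρ.act (avg μ m) w
    have h2 : ρ.act (1 - μ) (ρ.act B w) = ρ.act ((1 - μ) * B) w := by
      rw [ρ.act_mul]
      rfl
    rw [h2, ← hB2, map_sub, ρ.act_one]
    rfl
  obtain ⟨ξ, hξ⟩ := hwR
  have hξ' : ρ.act (1 - μ) ξ = w := hξ
  refine ⟨ξ, ?_⟩
  let ψ' : L1 G →ₗ[ℂ] E := ψ - (((ContinuousLinearMap.apply ℂ E ξ).comp ρ.act : L1 G →L[ℂ] E) :
    L1 G →ₗ[ℂ] E)
  have hψ'a : ∀ h, ψ' h = ψ h - ρ.act h ξ := fun h => rfl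
  have hψ' : ∀ f h : L1 G, aug h = 0 → ψ' (f * h) = ρ.act f (ψ' h) := by
    intro f h hh
    rw [hψ'a, hψ'a, hψ f h hh, ρ.act_mul, map_sub]
    rfl
  have hψ'μ : ψ' (1 - μ) = 0 := by
    rw [hψ'a, hξ', sub_self]
  -- step (b)
  have hb : ∀ j ∈ JJ μ, ψ' j = 0 := by
    intro j hj
    let Θ : L1 G →L[ℂ] ((L1 G × L1 G) →L[ℂ] (L1 G × L1 G)) :=
      (ContinuousLinearMap.prodMapL ℂ (L1 G) (L1 G) (L1 G) (L1 G)).comp
        ((mulL.flip : L1 G →L[ℂ] L1 G →L[ℂ] L1 G).prod (mulL.flip))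
    have hΘ : ∀ a x, Θ a x = (x.1 * a, x.2 * a) := fun a x => rfl
    have hΘ1 : Θ 1 = 1 := by
      apply ContinuousLinearMap.ext
      intro x
      rw [hΘ, mul_one, mul_one]
      rfl
    have hΘm : ∀ a b : L1 G, Commute a b → Θ (a * b) = Θ a * Θ b := by
      intro a b hab
      apply ContinuousLinearMap.ext
      intro x
      show Θ (a * b) x = Θ a (Θ b x)
      rw [hΘ, hΘ, hΘ, hab.eq, mul_assoc, mul_assoc]
    have hx0 : Tendsto (fun m => Θ (avg μ m) (j, 1 - μ)) atTop (𝓝 0) := by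
      have h1 := mem_JJ.1 hj
      have h2 := mem_JJ.1 (one_sub_mem_JJ hpow)
      exact h1.prodMk_nhds h2
    obtain ⟨q, y, _, hq0, hqy, hy0, _⟩ := factor (X := L1 G × L1 G) hpow hΘ1 hΘm hx0
    rw [hΘ] at hqy
    have hq1 : y.1 * q = j := congrArg Prod.fst hqy
    have hq2 : y.2 * q = 1 - μ := congrArg Prod.snd hqy
    have haq : aug q = 0 := aug_eq_zero_of_left hμ1 hq0
    have hc1 : aug y.1 = 0 := aug_eq_zero_of_mem hμ1
      (mem_JJ.2 ((continuous_fst.tendsto _).comp hy0))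
    have hc2 : aug y.2 = 0 := aug_eq_zero_of_mem hμ1
      (mem_JJ.2 ((continuous_snd.tendsto _).comp hy0))
    let V0 : Submodule ℂ E := LinearMap.ker Φ
    let C' : E →ₗ[ℂ] E := (ρ.act y.2 : E →L[ℂ] E)
    let Q' : E →ₗ[ℂ] E := (ρ.act q : E →L[ℂ] E)
    have hfac : Φ = C' ∘ₗ Q' := by
      have h1 : ρ.act (1 - μ) = ρ.act y.2 * ρ.act q := by rw [← hq2, ρ.act_mul]
      exact congrArg (fun T : E →L[ℂ] E => (T : E →ₗ[ℂ] E)) h1
    have hle : V0 ≤ LinearMap.ker C' := by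
      intro v hv
      exact fixed hμ hμ1 hfull ρ hv hc2
    have hdim : Module.finrank ℂ (LinearMap.ker C') ≤ Module.finrank ℂ V0 := by
      have h1 := LinearMap.finrank_range_add_finrank_ker C'
      have h2 := LinearMap.finrank_range_add_finrank_ker Φ
      have h3 : Module.finrank ℂ (LinearMap.range Φ) ≤ Module.finrank ℂ (LinearMap.range C') := by
        apply Submodule.finrank_mono
        rw [hfac]
        exact LinearMap.range_comp_le_range Q' C'
      have h4 : Module.finrank ℂ V0 = Module.finrank ℂ (LinearMap.ker Φ) := rfl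
      omega
    have heq : V0 = LinearMap.ker C' := Submodule.eq_of_le_of_finrank_le hle hdim
    have hmem : ψ' q ∈ V0 := by
      rw [heq]
      show ρ.act y.2 (ψ' q) = 0
      rw [← hψ' _ _ haq, hq2, hψ'μ]
    rw [← hq1, hψ' _ _ haq]
    exact fixed hμ hμ1 hfull ρ hmem hc1
  -- step (c)
  intro h hh
  have h1 := thmZ hμ hμ1 hfull ρ ψ' hψ' hb hh
  rw [hψ'a, sub_eq_zero] at h1
  exact h1

end Main

section Mu

/-- On a countable group there is a probability measure of full support. -/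
theorem exists_mu (G : Type u) [Group G] [Countable G] :
    ∃ μ : L1 G, Pos μ ∧ aug μ = 1 ∧ ∀ g, 0 < ‖cf μ g‖ := by
  obtain ⟨n, hn⟩ := exists_injective_nat G
  have hs : Summable (fun g : G => (1 / 2 : ℝ) ^ (n g)) :=
    (summable_geometric_of_lt_one (by norm_num) (by norm_num)).comp_injective hn
  set S : ℝ := ∑' g : G, (1 / 2 : ℝ) ^ (n g) with hS
  have hS0 : 0 < S := hs.tsum_pos (fun g => by positivity) 1 (by positivity)
  let v : G → ℂ := fun g => (((1 / 2 : ℝ) ^ (n g) / S : ℝ) : ℂ)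
  have hvn : ∀ g, ‖v g‖ = (1 / 2 : ℝ) ^ (n g) / S := by
    intro g
    rw [Complex.norm_real, Real.norm_of_nonneg (by positivity)]
  have hmem : Memℓp v 1 := by
    rw [memℓp_gen_iff one_toReal_pos]
    simp only [ENNReal.toReal_one, Real.rpow_one, hvn]
    exact hs.div_const S
  let μ : L1 G := (⟨v, hmem⟩ : lp (fun _ : G => ℂ) 1)
  have hcf : ∀ g, cf μ g = v g := fun g => rfl
  refine ⟨μ, fun g => ?_, ?_, fun g => ?_⟩
  · rw [hcf, hvn]
  · rw [aug_eq]
    simp only [hcf]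
    have h1 : ∑' g, v g = ((∑' g, (1 / 2 : ℝ) ^ (n g) / S : ℝ) : ℂ) := by
      rw [Complex.ofReal_tsum]
    rw [h1, tsum_div_const, ← hS, div_self hS0.ne']
    simp
  · rw [hcf, hvn]
    positivity

end Mu

end Run7.h939
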