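import Pool.Agent.Run7.h939.Rep
import Pool.Agent.Run7.h939.Fact

set_option autoImplicit false
open scoped ENNReal Topology
open Filter

namespace Run7.h939

universe u v w z

section Pos

variable {G : Type u}

/-- All coefficients are nonnegative. -/
def Pos (a : L1 G) : Prop := ∀ x, cf a x = ((‖cf a x‖ : ℝ) : ℂ)

theorem Pos.aug [Group G] {a : L1 G} (ha : Pos a) : (aug a) = ((‖a‖ : ℝ) : ℂ) := by
  rw [aug_eq, norm_eq, Complex.ofReal_tsum]
  exact tsum_congr fun x => ha x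

theorem pos_del (x : G) : Pos (del x) := by
  classical
  intro y
  rw [cf_del]
  by_cases h : y = x
  · rw [if_pos h]; simp
  · rw [if_neg h]; simp

variable [Group G]

theorem Pos.mul {a b : L1 G} (ha : Pos a) (hb : Pos b) : Pos (a * b) := by
  intro x
  have h1 : cf (a * b) x = ((∑' y, ‖cf a y‖ * ‖cf b (y⁻¹ * x)‖ : ℝ) : ℂ) := by
    rw [cf_mul, Complex.ofReal_tsum]
    refine tsum_congr fun y => ?_
    rw [Complex.ofReal_mul, ← ha, ← hb]
  rw [h1, Complex.norm_real, Real.norm_of_nonneg]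
  exact tsum_nonneg fun y => mul_nonneg (norm_nonneg _) (norm_nonneg _)

theorem Pos.pow {a : L1 G} (ha : Pos a) (k : ℕ) : Pos (a ^ k) := by
  induction k with
  | zero => rw [pow_zero]; exact pos_del 1
  | succ k ih => rw [pow_succ]; exact ih.mul ha

theorem Pos.norm_pow {a : L1 G} (ha : Pos a) (h1 : Run7.h939.aug a = 1) (k : ℕ) : ‖a ^ k‖ = 1 := by
  have h2 := (ha.pow k).aug
  have h3 : Run7.h939.aug (a ^ k) = 1 := by
    induction k with
    | zero => rw [pow_zero, aug_one]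
    | succ k ih => rw [pow_succ, aug_mul, h1, mul_one]; exact ih ((ha.pow k).aug)
  rw [h3] at h2
  exact_mod_cast h2.symm

/-- The expectation of a function with respect to a nonnegative element. -/
noncomputable def ex (a : L1 G) (F : G → ℝ) : ℝ := ∑' y, ‖cf a y‖ * F y

omit [Group G] in
theorem ex_summable (a : L1 G) {F : G → ℝ} {C : ℝ} (hF : ∀ y, |F y| ≤ C) :
    Summable (fun y => ‖cf a y‖ * F y) := by
  refine Summable.of_norm_bounded ((summable_cf a).mul_right C) fun y => ?_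
  rw [norm_mul, norm_norm, Real.norm_eq_abs]
  exact mul_le_mul_of_nonneg_left (hF y) (norm_nonneg _)

omit [Group G] in
theorem norm_lift_le_ex (a : L1 G) {H : G → ℂ} (hH : Bdd H) {F : G → ℝ} {C : ℝ}
    (hF : ∀ y, |F y| ≤ C) (hHF : ∀ y, ‖H y‖ ≤ F y) : ‖lift H hH a‖ ≤ ex a F := by
  rw [lift_apply]
  refine tsum_of_norm_bounded (ex_summable a hF).hasSum fun y => ?_
  rw [norm_smul]
  exact mul_le_mul_of_nonneg_left (hHF y) (norm_nonneg _)

omit [Group G] in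
theorem lift_ofReal {a : L1 G} (ha : Pos a) {F : G → ℝ} (hF : Bdd (fun y => ((F y : ℝ) : ℂ))) :
    lift (fun y => ((F y : ℝ) : ℂ)) hF a = ((ex a F : ℝ) : ℂ) := by
  rw [lift_apply, ex, Complex.ofReal_tsum]
  refine tsum_congr fun y => ?_
  rw [Complex.ofReal_mul, ← ha, smul_eq_mul]

end Pos

section Mart

variable {G : Type u} [Group G]

theorem hasSum_del_mul (y : G) (μ : L1 G) :
    HasSum (fun s => cf μ s • del (y * s)) (del y * μ) := by
  have h := (hasSum_del μ).mapL (mulL (del y))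
  have h2 : (fun s => (mulL (del y)) (cf μ s • del s)) = fun s => cf μ s • del (y * s) := by
    funext s
    rw [map_smul, mulL_del]
  rw [h2] at h
  exact h

theorem phi_bound (φ : L1 G →L[ℂ] ℂ) (y : G) : ‖φ (del y)‖ ≤ ‖φ‖ := by
  have := φ.le_opNorm (del y)
  rwa [norm_del, mul_one] at this

/-- The square of the modulus of a functional, as a function on the group. -/
noncomputable def sqF (φ : L1 G →L[ℂ] ℂ) (y : G) : ℝ := ‖φ (del y)‖ ^ 2

theorem sqF_bdd (φ : L1 G →L[ℂ] ℂ) : Bdd (fun y => ((sqF φ y : ℝ) : ℂ)) := by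
  refine ⟨‖φ‖ ^ 2, fun y => ?_⟩
  rw [Complex.norm_real, Real.norm_of_nonneg (by unfold sqF; positivity)]
  unfold sqF
  have := phi_bound φ y
  gcongr

theorem sqF_abs (φ : L1 G →L[ℂ] ℂ) (y : G) : |sqF φ y| ≤ ‖φ‖ ^ 2 := by
  rw [abs_of_nonneg (by unfold sqF; positivity)]
  unfold sqF
  have := phi_bound φ y
  gcongr

/-- The corresponding functional. -/
noncomputable def Sq (φ : L1 G →L[ℂ] ℂ) : L1 G →L[ℂ] ℂ := lift _ (sqF_bdd φ)

theorem Sq_pos {φ : L1 G →L[ℂ] ℂ} {a : L1 G} (ha : Pos a) :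
    Sq φ a = ((ex a (sqF φ) : ℝ) : ℂ) := lift_ofReal ha _

theorem ex_sqF_le {φ : L1 G →L[ℂ] ℂ} {a : L1 G} : ex a (sqF φ) ≤ ‖φ‖ ^ 2 * ‖a‖ := by
  rw [ex, norm_eq, mul_comm, ← tsum_mul_right]
  refine Summable.tsum_le_tsum (fun y => ?_) (ex_summable a (sqF_abs φ))
    ((summable_cf a).mul_right _)
  exact mul_le_mul_of_nonneg_left ((le_abs_self _).trans (sqF_abs φ y)) (norm_nonneg _)

theorem ex_sqF_nonneg {φ : L1 G →L[ℂ] ℂ} {a : L1 G} : 0 ≤ ex a (sqF φ) :=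
  tsum_nonneg fun y => mul_nonneg (norm_nonneg _) (by unfold sqF; positivity)

/-- The increments. -/
noncomputable def dF (φ : L1 G →L[ℂ] ℂ) (g y : G) : ℝ := ‖φ (del (y * g)) - φ (del y)‖

theorem dF_le (φ : L1 G →L[ℂ] ℂ) (g y : G) : dF φ g y ≤ 2 * ‖φ‖ := by
  unfold dF
  refine (norm_sub_le _ _).trans ?_
  linarith [phi_bound φ (y * g), phi_bound φ y]

theorem dF_nonneg (φ : L1 G →L[ℂ] ℂ) (g y : G) : 0 ≤ dF φ g y := norm_nonneg _

/-- The pointwise estimate. -/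
theorem step_pointwise {φ : L1 G →L[ℂ] ℂ} {μ : L1 G} (hμ : Pos μ) (hμ1 : aug μ = 1)
    (hφ : ∀ y, φ (del y * μ) = φ (del y)) (g y : G) :
    sqF φ y + ‖cf μ g‖ * dF φ g y ^ 2 ≤ (Sq φ (del y * μ)).re := by
  have e1 : HasSum (fun s => ‖cf μ s‖ * sqF φ (y * s)) (Sq φ (del y * μ)).re := by
    have h := (hasSum_del_mul y μ).mapL (Sq φ)
    have h2 : (fun s => (Sq φ) (cf μ s • del (y * s))) =
        fun s => ((‖cf μ s‖ * sqF φ (y * s) : ℝ) : ℂ) := by
      funext s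
      rw [map_smul, Sq, lift_del, smul_eq_mul, Complex.ofReal_mul, ← hμ s]
    rw [h2] at h
    have h3 := (Complex.hasSum_iff _ _).1 h
    simpa using h3.1
  have e2 : HasSum (fun s => cf μ s * φ (del (y * s))) (φ (del y)) := by
    have h := (hasSum_del_mul y μ).mapL φ
    rw [hφ y] at h
    have h2 : (fun s => φ (cf μ s • del (y * s))) = fun s => cf μ s * φ (del (y * s)) := by
      funext s
      rw [map_smul, smul_eq_mul]
    rw [h2] at h
    exact h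
  have e3 : HasSum (fun s => ‖cf μ s‖) 1 := by
    have h := (summable_cf μ).hasSum
    rw [← norm_eq] at h
    have h2 := hμ.aug
    rw [hμ1] at h2
    have h3 : ‖μ‖ = 1 := by exact_mod_cast h2.symm
    rwa [h3] at h
  have e4 : HasSum (fun s => (cf μ s * φ (del (y * s)) * (starRingEnd ℂ) (φ (del y))).re)
      (sqF φ y) := by
    have h := e2.mul_right ((starRingEnd ℂ) (φ (del y)))
    have h3 := ((Complex.hasSum_iff _ _).1 h).1
    rw [Complex.mul_conj, Complex.ofReal_re, Complex.normSq_eq_norm_sq] at h3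
    exact h3
  have e5 : HasSum (fun s => ‖cf μ s‖ * dF φ s y ^ 2) ((Sq φ (del y * μ)).re - sqF φ y) := by
    have h := (e1.sub (e4.mul_left 2)).add (e3.mul_right (sqF φ y))
    have h2 : (Sq φ (del y * μ)).re - 2 * sqF φ y + 1 * sqF φ y =
        (Sq φ (del y * μ)).re - sqF φ y := by ring
    rw [h2] at h
    refine h.congr_fun ?_
    intro s
    have h3 : cf μ s * φ (del (y * s)) * (starRingEnd ℂ) (φ (del y)) =
        ((‖cf μ s‖ : ℝ) : ℂ) * (φ (del (y * s)) * (starRingEnd ℂ) (φ (del y))) := by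
      rw [← hμ s, mul_assoc]
    rw [h3, Complex.re_ofReal_mul]
    unfold dF sqF
    have h4 : ‖φ (del (y * s)) - φ (del y)‖ ^ 2 = ‖φ (del (y * s))‖ ^ 2 + ‖φ (del y)‖ ^ 2 -
        2 * (φ (del (y * s)) * (starRingEnd ℂ) (φ (del y))).re := by
      rw [← Complex.normSq_eq_norm_sq, ← Complex.normSq_eq_norm_sq, ← Complex.normSq_eq_norm_sq,
        Complex.normSq_sub]
    rw [h4]
    ring
  have e6 := le_hasSum e5 g fun s _ => by positivity
  linarith

/-- The integrated estimate. -/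
theorem step_ex {φ : L1 G →L[ℂ] ℂ} {μ : L1 G} (hμ : Pos μ) (hμ1 : aug μ = 1)
    (hφ : ∀ y, φ (del y * μ) = φ (del y)) (g : G) {ν : L1 G} (hν : Pos ν) :
    ‖cf μ g‖ * ex ν (fun y => dF φ g y ^ 2) ≤ ex (ν * μ) (sqF φ) - ex ν (sqF φ) := by
  have hd : ∀ y, |dF φ g y ^ 2| ≤ (2 * ‖φ‖) ^ 2 := by
    intro y
    rw [abs_of_nonneg (by positivity)]
    have := dF_le φ g y
    have := dF_nonneg φ g y
    gcongr
  have e1 : HasSum (fun y => ‖cf ν y‖ * (Sq φ (del y * μ)).re) (ex (ν * μ) (sqF φ)) := by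
    have h := (hasSum_del ν).mapL ((Sq φ).comp (mulL.flip μ))
    have h2 : ((Sq φ).comp (mulL.flip μ)) ν = Sq φ (ν * μ) := rfl
    rw [h2, Sq_pos (hν.mul hμ)] at h
    have h3 := ((Complex.hasSum_iff _ _).1 h).1
    rw [Complex.ofReal_re] at h3
    convert h3 using 2 with y
    rw [map_smul, smul_eq_mul, hν y, Complex.re_ofReal_mul, ← hν y]
    rfl
  have e2 : HasSum (fun y => ‖cf ν y‖ * sqF φ y) (ex ν (sqF φ)) :=
    (ex_summable ν (sqF_abs φ)).hasSum
  have e3 : HasSum (fun y => ‖cf ν y‖ * dF φ g y ^ 2) (ex ν (fun y => dF φ g y ^ 2)) :=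
    (ex_summable ν hd).hasSum
  have e4 := e2.add (e3.mul_left ‖cf μ g‖)
  have e5 := hasSum_le (fun y => ?_) e4 e1
  · linarith
  · have h := step_pointwise hμ hμ1 hφ g y
    have h2 := mul_le_mul_of_nonneg_left h (norm_nonneg (cf ν y))
    linarith

theorem sum_ex {φ : L1 G →L[ℂ] ℂ} {μ : L1 G} (hμ : Pos μ) (hμ1 : aug μ = 1)
    (hφ : ∀ y, φ (del y * μ) = φ (del y)) (g : G) (m : ℕ) :
    ‖cf μ g‖ * ∑ k ∈ Finset.range (m + 1), ex (μ ^ k) (fun y => dF φ g y ^ 2) ≤ ‖φ‖ ^ 2 := by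
  rw [Finset.mul_sum]
  have h1 : ∀ k ∈ Finset.range (m + 1), ‖cf μ g‖ * ex (μ ^ k) (fun y => dF φ g y ^ 2) ≤
      ex (μ ^ (k + 1)) (sqF φ) - ex (μ ^ k) (sqF φ) := by
    intro k _
    rw [pow_succ]
    exact step_ex hμ hμ1 hφ g (hμ.pow k)
  refine (Finset.sum_le_sum h1).trans ?_
  rw [Finset.sum_range_sub (fun k => ex (μ ^ k) (sqF φ))]
  have h2 := ex_sqF_le (φ := φ) (a := μ ^ (m + 1))
  rw [hμ.norm_pow hμ1, mul_one] at h2
  have h3 := ex_sqF_nonneg (φ := φ) (a := μ ^ 0)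
  linarith

theorem lift_avg_le {φ : L1 G →L[ℂ] ℂ} {μ : L1 G} (hμ : Pos μ) (hμ1 : aug μ = 1)
    (hφ : ∀ y, φ (del y * μ) = φ (del y)) (g : G) (hg : 0 < ‖cf μ g‖) (m : ℕ) {H : G → ℂ}
    (hH : Bdd H) {c : ℝ} (hc : 0 ≤ c) (hHc : ∀ y, ‖H y‖ ≤ c * dF φ g y) {η : ℝ} (hη : 0 < η) :
    ‖lift H hH (avg μ m)‖ ≤ c * (η + ‖φ‖ ^ 2 / (4 * η * ‖cf μ g‖ * (m + 1))) := by
  have hd : ∀ y, |dF φ g y ^ 2| ≤ (2 * ‖φ‖) ^ 2 := by
    intro y
    rw [abs_of_nonneg (by positivity)]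
    have := dF_le φ g y
    have := dF_nonneg φ g y
    gcongr
  have hk : ∀ k, ‖lift H hH (μ ^ k)‖ ≤ c * (η + ex (μ ^ k) (fun y => dF φ g y ^ 2) / (4 * η)) := by
    intro k
    have h1 : ∀ y, ‖H y‖ ≤ c * (η + dF φ g y ^ 2 / (4 * η)) := by
      intro y
      refine (hHc y).trans (mul_le_mul_of_nonneg_left ?_ hc)
      have h2 : η + dF φ g y ^ 2 / (4 * η) - dF φ g y = (2 * η - dF φ g y) ^ 2 / (4 * η) := by
        field_simp
        ring
      have h3 : 0 ≤ (2 * η - dF φ g y) ^ 2 / (4 * η) := by positivity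
      linarith
    have h2 : ∀ y, |c * (η + dF φ g y ^ 2 / (4 * η))| ≤ c * (η + (2 * ‖φ‖) ^ 2 / (4 * η)) := by
      intro y
      rw [abs_of_nonneg (by positivity)]
      have := (le_abs_self _).trans (hd y)
      gcongr
    refine (norm_lift_le_ex (μ ^ k) hH h2 h1).trans (le_of_eq ?_)
    have e1 : HasSum (fun y => ‖cf (μ ^ k) y‖) 1 := by
      have h := (summable_cf (μ ^ k)).hasSum
      rwa [← norm_eq, hμ.norm_pow hμ1] at h
    have e2 : HasSum (fun y => ‖cf (μ ^ k) y‖ * dF φ g y ^ 2)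
        (ex (μ ^ k) (fun y => dF φ g y ^ 2)) := (ex_summable _ hd).hasSum
    have e3 := ((e1.mul_right η).add (e2.mul_right (4 * η)⁻¹)).mul_left c
    rw [ex, div_eq_mul_inv]
    rw [one_mul] at e3
    rw [← e3.tsum_eq]
    refine tsum_congr fun y => ?_
    rw [div_eq_mul_inv]
    ring
  have h1 : ‖lift H hH (avg μ m)‖ ≤ ((m : ℝ) + 1)⁻¹ * ∑ k ∈ Finset.range (m + 1),
      c * (η + ex (μ ^ k) (fun y => dF φ g y ^ 2) / (4 * η)) := by
    rw [avg, map_smul, map_sum, norm_smul, norm_inv_succ]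
    refine mul_le_mul_of_nonneg_left ?_ (by positivity)
    refine (norm_sum_le _ _).trans ?_
    exact Finset.sum_le_sum fun k _ => hk k
  refine h1.trans ?_
  rw [← Finset.mul_sum, Finset.sum_add_distrib, ← Finset.sum_div, Finset.sum_const,
    Finset.card_range, nsmul_eq_mul]
  push_cast
  have h2 := sum_ex hμ hμ1 hφ g m
  set S := ∑ k ∈ Finset.range (m + 1), ex (μ ^ k) (fun y => dF φ g y ^ 2) with hS
  have h3 : S ≤ ‖φ‖ ^ 2 / ‖cf μ g‖ := by
    rw [le_div_iff₀ hg, mul_comm]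
    exact h2
  have hm : (0 : ℝ) < (m : ℝ) + 1 := by positivity
  calc ((m : ℝ) + 1)⁻¹ * (c * (((m : ℝ) + 1) * η + S / (4 * η)))
      = c * (η + S / (4 * η * ((m : ℝ) + 1))) := by field_simp
    _ ≤ c * (η + (‖φ‖ ^ 2 / ‖cf μ g‖) / (4 * η * ((m : ℝ) + 1))) := by gcongr
    _ = c * (η + ‖φ‖ ^ 2 / (4 * η * ‖cf μ g‖ * (m + 1))) := by
        congr 2
        rw [div_div]
        congr 1
        ring

/-- The final form: the averages of the increments tend to zero uniformly. -/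
theorem lift_avg_le' {φ : L1 G →L[ℂ] ℂ} {μ : L1 G} (hμ : Pos μ) (hμ1 : aug μ = 1)
    (hφ : ∀ y, φ (del y * μ) = φ (del y)) (g : G) (hg : 0 < ‖cf μ g‖) (m : ℕ) {H : G → ℂ}
    (hH : Bdd H) {c : ℝ} (hc : 0 ≤ c) (hHc : ∀ y, ‖H y‖ ≤ c * dF φ g y) {t : ℝ} (ht : 0 < t) :
    ‖lift H hH (avg μ m)‖ ≤ c * ‖φ‖ * (t + 1 / (4 * t * ‖cf μ g‖ * (m + 1))) := by
  rcases eq_or_lt_of_le (norm_nonneg φ) with h0 | h0
  · have hH0 : ∀ y, ‖H y‖ ≤ 0 := by
      intro y
      have h1 := hHc y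
      have h2 := dF_le φ g y
      have h3 := dF_nonneg φ g y
      rw [← h0, mul_zero] at h2
      have h4 : dF φ g y = 0 := le_antisymm h2 h3
      rwa [h4, mul_zero] at h1
    have := norm_lift_le H hH hH0 (avg μ m)
    rw [zero_mul] at this
    rw [← h0, mul_zero, zero_mul]
    exact this
  · have h1 := lift_avg_le hμ hμ1 hφ g hg m hH hc hHc (show 0 < ‖φ‖ * t by positivity)
    refine h1.trans (le_of_eq ?_)
    have hm : (0 : ℝ) < (m : ℝ) + 1 := by positivity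
    field_simp

end Mart

end Run7.h939
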