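import Pool.Agent.Run7.h939.L1

set_option autoImplicit false
open scoped ENNReal Topology
open Filter

namespace Run7.h939

universe u v w z

/-- A bounded representation of `G` on `X`. -/
structure BRep (G : Type u) [Group G] (X : Type v) [NormedAddCommGroup X] [NormedSpace ℂ X] where
  /-- the operators -/
  op : G → (X →L[ℂ] X)
  op_one : op 1 = 1
  op_mul : ∀ g h, op (g * h) = op g * op h
  bdd : Bdd op

section Act

variable {G : Type u} [Group G] {X : Type v} [NormedAddCommGroup X] [NormedSpace ℂ X]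
  [CompleteSpace X]

/-- The action of `ℓ¹(G)`. -/
noncomputable def BRep.act (ρ : BRep G X) : L1 G →L[ℂ] (X →L[ℂ] X) := lift ρ.op ρ.bdd

theorem BRep.act_del (ρ : BRep G X) (g : G) : ρ.act (del g) = ρ.op g := lift_del _ _ g

theorem BRep.act_one (ρ : BRep G X) : ρ.act 1 = 1 := by
  rw [one_def, ρ.act_del, ρ.op_one]

theorem BRep.act_mul (ρ : BRep G X) (f g : L1 G) : ρ.act (f * g) = ρ.act f * ρ.act g := by
  have h2 : ∀ x : G, (ρ.act.comp (mulL (del x)) : L1 G →L[ℂ] (X →L[ℂ] X)) =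
      (ContinuousLinearMap.mul ℂ (X →L[ℂ] X) (ρ.op x)).comp ρ.act := by
    intro x
    apply clm_ext
    intro y
    rw [ContinuousLinearMap.comp_apply, mulL_del, ρ.act_del, ContinuousLinearMap.comp_apply,
      ρ.act_del, ContinuousLinearMap.mul_apply', ρ.op_mul]
  have h1 : (ρ.act.comp (mulL.flip g) : L1 G →L[ℂ] (X →L[ℂ] X)) =
      ((ContinuousLinearMap.mul ℂ (X →L[ℂ] X)).flip (ρ.act g)).comp ρ.act := by
    apply clm_ext
    intro x
    have h3 := congrArg (fun T : L1 G →L[ℂ] (X →L[ℂ] X) => T g) (h2 x)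
    simp only [ContinuousLinearMap.comp_apply, ContinuousLinearMap.mul_apply'] at h3
    rw [ContinuousLinearMap.comp_apply, ContinuousLinearMap.flip_apply, h3,
      ContinuousLinearMap.comp_apply, ContinuousLinearMap.flip_apply,
      ContinuousLinearMap.mul_apply', ρ.act_del]
  have h3 := congrArg (fun T : L1 G →L[ℂ] (X →L[ℂ] X) => T f) h1
  simp only [ContinuousLinearMap.comp_apply, ContinuousLinearMap.mul_apply',
    ContinuousLinearMap.flip_apply] at h3
  exact h3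

theorem BRep.op_inv_mul (ρ : BRep G X) (g : G) : ρ.op g⁻¹ * ρ.op g = 1 := by
  rw [← ρ.op_mul, inv_mul_cancel, ρ.op_one]

theorem BRep.op_mul_inv (ρ : BRep G X) (g : G) : ρ.op g * ρ.op g⁻¹ = 1 := by
  rw [← ρ.op_mul, mul_inv_cancel, ρ.op_one]

end Act

section Hom

variable {G : Type u} [Group G]
  {E : Type v} [NormedAddCommGroup E] [NormedSpace ℂ E]
  {X : Type w} [NormedAddCommGroup X] [NormedSpace ℂ X]

/-- The operator `ξ ↦ S ∘ ξ ∘ R`. -/
noncomputable def sandwich (S : X →L[ℂ] X) (R : E →L[ℂ] E) : (E →L[ℂ] X) →L[ℂ] (E →L[ℂ] X) :=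
  (ContinuousLinearMap.compL ℂ E X X S).comp ((ContinuousLinearMap.compL ℂ E E X).flip R)

theorem sandwich_apply (S : X →L[ℂ] X) (R : E →L[ℂ] E) (ξ : E →L[ℂ] X) :
    sandwich S R ξ = S.comp (ξ.comp R) := rfl

theorem norm_sandwich_le (S : X →L[ℂ] X) (R : E →L[ℂ] E) :
    ‖sandwich (E := E) (X := X) S R‖ ≤ ‖S‖ * ‖R‖ := by
  refine ContinuousLinearMap.opNorm_le_bound _ (by positivity) fun ξ => ?_
  rw [sandwich_apply]
  refine (ContinuousLinearMap.opNorm_comp_le _ _).trans ?_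
  refine (mul_le_mul_of_nonneg_left (ContinuousLinearMap.opNorm_comp_le _ _)
    (norm_nonneg S)).trans ?_
  rw [mul_assoc, mul_comm ‖ξ‖ ‖R‖]

/-- The representation on `Hom(E, X)` by conjugation. -/
noncomputable def homRep (ρ : BRep G E) (σ : BRep G X) : BRep G (E →L[ℂ] X) where
  op g := sandwich (σ.op g) (ρ.op g⁻¹)
  op_one := by
    ext ξ v
    rw [sandwich_apply, inv_one, σ.op_one, ρ.op_one]
    rfl
  op_mul g h := by
    ext ξ v
    rw [sandwich_apply, mul_inv_rev, σ.op_mul, ρ.op_mul]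
    rfl
  bdd := by
    obtain ⟨C, hC⟩ := ρ.bdd
    obtain ⟨D, hD⟩ := σ.bdd
    refine ⟨D * C, fun g => ?_⟩
    refine (norm_sandwich_le _ _).trans ?_
    exact mul_le_mul (hD g) (hC _) (norm_nonneg _) ((norm_nonneg _).trans (hD g))

theorem homRep_op (ρ : BRep G E) (σ : BRep G X) (g : G) (ξ : E →L[ℂ] X) (v : E) :
    (homRep ρ σ).op g ξ v = σ.op g (ξ (ρ.op g⁻¹ v)) := rfl

variable [FiniteDimensional ℂ E]

/-- The elements of `ℓ¹(G)` used to expand the action on `Hom(E, X)`. -/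
theorem wt_bdd (ρ : BRep G E) (v : E) (i : Fin (Module.finrank ℂ E)) :
    Bdd (fun g : G => ((Module.finBasis ℂ E).coord i (ρ.op g⁻¹ v)) • (del g : L1 G)) := by
  obtain ⟨C, hC⟩ := ρ.bdd
  let c : E →L[ℂ] ℂ := LinearMap.toContinuousLinearMap ((Module.finBasis ℂ E).coord i)
  refine ⟨‖c‖ * (C * ‖v‖), fun g => ?_⟩
  rw [norm_smul, norm_del, mul_one]
  refine (c.le_opNorm _).trans ?_
  refine mul_le_mul_of_nonneg_left ?_ (norm_nonneg _)
  refine ((ρ.op g⁻¹).le_opNorm v).trans ?_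
  exact mul_le_mul_of_nonneg_right (hC _) (norm_nonneg _)

/-- The elements of `ℓ¹(G)` used to expand the action on `Hom(E, X)`. -/
noncomputable def wt (ρ : BRep G E) (v : E) (i : Fin (Module.finrank ℂ E)) : L1 G →L[ℂ] L1 G :=
  lift _ (wt_bdd ρ v i)

theorem act_hom_expand [CompleteSpace X] (ρ : BRep G E) (σ : BRep G X) (f : L1 G)
    (ξ : E →L[ℂ] X) (v : E) :
    (homRep ρ σ).act f ξ v = ∑ i, σ.act (wt ρ v i f) (ξ (Module.finBasis ℂ E i)) := by
  let L : L1 G →L[ℂ] X :=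
    (ContinuousLinearMap.apply ℂ X v).comp
      ((ContinuousLinearMap.apply ℂ (E →L[ℂ] X) ξ).comp (homRep ρ σ).act)
  let R : L1 G →L[ℂ] X := ∑ i,
    ((ContinuousLinearMap.apply ℂ X (ξ (Module.finBasis ℂ E i))).comp
      (σ.act.comp (wt ρ v i)))
  have h : L = R := by
    apply clm_ext
    intro g
    show (homRep ρ σ).act (del g) ξ v = R (del g)
    rw [BRep.act_del, homRep_op]
    simp only [R, ContinuousLinearMap.sum_apply, ContinuousLinearMap.comp_apply,
      ContinuousLinearMap.apply_apply]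
    have h2 : ∀ i, wt ρ v i (del g) =
        ((Module.finBasis ℂ E).coord i (ρ.op g⁻¹ v)) • (del g : L1 G) := fun i => lift_del _ _ g
    simp only [h2, map_smul, BRep.act_del, smul_apply]
    conv_lhs => rw [← (Module.finBasis ℂ E).sum_repr (ρ.op g⁻¹ v)]
    rw [map_sum, map_sum]
    refine Finset.sum_congr rfl fun i _ => ?_
    rw [map_smul, map_smul]
    rfl
  have h3 := congrArg (fun T : L1 G →L[ℂ] X => T f) h
  simp only [L, R, ContinuousLinearMap.sum_apply, ContinuousLinearMap.comp_apply,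
      ContinuousLinearMap.apply_apply] at h3
  exact h3

/-- A discontinuous module map commutes with the action on `Hom(E, X)`, `E` finite-dimensional. -/
theorem lemT [CompleteSpace X] {N : Type z} [NormedAddCommGroup N] [NormedSpace ℂ N]
    [CompleteSpace N] (ρ : BRep G E) (σ : BRep G X) (τ : BRep G N) (T : X →ₗ[ℂ] N)
    (ξ : E →L[ℂ] X) (hT : ∀ f v, T (σ.act f (ξ v)) = τ.act f (T (ξ v))) (f : L1 G) (v : E) :
    T ((homRep ρ σ).act f ξ v) =
      (homRep ρ τ).act f (LinearMap.toContinuousLinearMap (T ∘ₗ (ξ : E →ₗ[ℂ] X))) v := by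
  rw [act_hom_expand, act_hom_expand, map_sum]
  refine Finset.sum_congr rfl fun i _ => ?_
  rw [hT]
  rfl

/-- The trace, as a continuous functional. -/
noncomputable def trC (E : Type v) [NormedAddCommGroup E] [NormedSpace ℂ E]
    [FiniteDimensional ℂ E] : (E →L[ℂ] E) →L[ℂ] ℂ :=
  LinearMap.toContinuousLinearMap
    ((LinearMap.trace ℂ E) ∘ₗ (ContinuousLinearMap.coeLM ℂ : (E →L[ℂ] E) →ₗ[ℂ] (E →ₗ[ℂ] E)))

theorem trC_apply (S : E →L[ℂ] E) : trC E S = LinearMap.trace ℂ E (S : E →ₗ[ℂ] E) := rfl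

theorem trC_act (ρ : BRep G E) (f : L1 G) (S : E →L[ℂ] E) :
    trC E ((homRep ρ ρ).act f S) = aug f * trC E S := by
  have : CompleteSpace E := FiniteDimensional.complete ℂ E
  have h : ((trC E).comp ((ContinuousLinearMap.apply ℂ (E →L[ℂ] E) S).comp (homRep ρ ρ).act) :
      L1 G →L[ℂ] ℂ) = (trC E S) • (aug : L1 G →L[ℂ] ℂ) := by
    apply clm_ext
    intro g
    simp only [ContinuousLinearMap.comp_apply, ContinuousLinearMap.apply_apply, BRep.act_del,
      smul_apply, aug_del, smul_eq_mul, mul_one]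
    rw [trC_apply, trC_apply]
    have h1 : (((homRep ρ ρ).op g S : E →L[ℂ] E) : E →ₗ[ℂ] E) =
        ((ρ.op g : E →L[ℂ] E) : E →ₗ[ℂ] E) *
          ((S : E →ₗ[ℂ] E) * ((ρ.op g⁻¹ : E →L[ℂ] E) : E →ₗ[ℂ] E)) := rfl
    rw [h1, LinearMap.trace_mul_comm, mul_assoc]
    have h2 : ((ρ.op g⁻¹ : E →L[ℂ] E) : E →ₗ[ℂ] E) * ((ρ.op g : E →L[ℂ] E) : E →ₗ[ℂ] E) = 1 := by
      have := ρ.op_inv_mul g
      exact congrArg (fun T : E →L[ℂ] E => (T : E →ₗ[ℂ] E)) this
    rw [h2, mul_one]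
  have h3 := congrArg (fun T : L1 G →L[ℂ] ℂ => T f) h
  simp only [ContinuousLinearMap.comp_apply, ContinuousLinearMap.apply_apply,
      smul_apply, smul_eq_mul] at h3
  rw [h3, mul_comm]

end Hom

end Run7.h939
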