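import Pool.Agent.Run7.h939.Mart

set_option autoImplicit false
open scoped ENNReal Topology
open Filter

namespace Run7.h939

universe u v w z

section ZeroSub

variable {X : Type v} [NormedAddCommGroup X] [NormedSpace ℂ X]
  {Y : Type w} [NormedAddCommGroup Y] [NormedSpace ℂ Y]

/-- The vectors sent to a null sequence. -/
def zeroSub (T : ℕ → X →L[ℂ] Y) : Submodule ℂ X where
  carrier := {x | Tendsto (fun m => T m x) atTop (𝓝 0)}
  add_mem' := by
    intro a b ha hb
    have := Tendsto.add ha hb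
    simpa using this
  zero_mem' := by
    simp only [Set.mem_ofPred_eq, map_zero]
    exact tendsto_const_nhds
  smul_mem' := by
    intro c a ha
    have := Tendsto.const_smul ha c
    simpa using this

theorem mem_zeroSub {T : ℕ → X →L[ℂ] Y} {x : X} :
    x ∈ zeroSub T ↔ Tendsto (fun m => T m x) atTop (𝓝 0) := Iff.rfl

theorem isClosed_zeroSub {T : ℕ → X →L[ℂ] Y} {C : ℝ} (hC : ∀ m, ‖T m‖ ≤ C) :
    IsClosed (zeroSub T : Set X) := by
  have hC0 : 0 ≤ C := (norm_nonneg _).trans (hC 0)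
  apply isClosed_of_closure_subset
  intro x hx
  show Tendsto (fun m => T m x) atTop (𝓝 0)
  rw [Metric.tendsto_atTop]
  intro ε hε
  obtain ⟨b, hb, hxb⟩ := Metric.mem_closure_iff.1 hx (ε / (2 * (C + 1))) (by positivity)
  obtain ⟨N, hN⟩ := Metric.tendsto_atTop.1 hb (ε / 2) (by positivity)
  refine ⟨N, fun m hm => ?_⟩
  have h1 := hN m hm
  rw [dist_zero_right] at h1 ⊢
  have e1 : T m x = T m (x - b) + T m b := by rw [map_sub, sub_add_cancel]
  rw [e1]
  refine lt_of_le_of_lt (norm_add_le _ _) ?_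
  have h2 : ‖T m (x - b)‖ ≤ C * (ε / (2 * (C + 1))) := by
    refine ((T m).le_opNorm _).trans ?_
    refine mul_le_mul (hC m) ?_ (norm_nonneg _) hC0
    rw [← dist_eq_norm]
    exact hxb.le
  have h3 : C * (ε / (2 * (C + 1))) ≤ ε / 2 := by
    rw [mul_div_assoc', div_le_div_iff₀ (by positivity) (by positivity)]
    nlinarith
  linarith

end ZeroSub

section JJ

variable {G : Type u} [Group G]

theorem norm_mulR_le (b : L1 G) : ‖(mulL.flip b : L1 G →L[ℂ] L1 G)‖ ≤ ‖b‖ := by
  refine ContinuousLinearMap.opNorm_le_bound _ (norm_nonneg _) fun x => ?_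
  have := norm_mul_le' x b
  rw [mul_comm]
  exact this

/-- The closed left ideal attached to `μ`. -/
noncomputable def JJ (μ : L1 G) : Submodule ℂ (L1 G) :=
  zeroSub (fun m => (mulL.flip (avg μ m) : L1 G →L[ℂ] L1 G))

theorem mem_JJ {μ a : L1 G} : a ∈ JJ μ ↔ Tendsto (fun m => a * avg μ m) atTop (𝓝 0) := Iff.rfl

theorem isClosed_JJ {μ : L1 G} (hμ : ∀ k, ‖μ ^ k‖ ≤ 1) : IsClosed (JJ μ : Set (L1 G)) :=
  isClosed_zeroSub (C := 1) fun m => (norm_mulR_le _).trans (norm_avg_le hμ m)

theorem JJ_mul {μ a : L1 G} (f : L1 G) (ha : a ∈ JJ μ) : f * a ∈ JJ μ := by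
  rw [mem_JJ] at ha ⊢
  have := ha.const_mul f
  simpa [mul_assoc] using this

theorem one_sub_mem_JJ {μ : L1 G} (hμ : ∀ k, ‖μ ^ k‖ ≤ 1) : 1 - μ ∈ JJ μ := by
  rw [mem_JJ]
  have h := tendsto_avg_mul_one_sub hμ
  have h2 : ∀ m, avg μ m * (1 - μ) = (1 - μ) * avg μ m := by
    intro m
    exact (((Commute.one_left _).sub_left (commute_avg μ m)).eq).symm
  simp only [h2] at h
  exact h

theorem aug_avg {μ : L1 G} (hμ1 : aug μ = 1) (m : ℕ) : aug (avg μ m) = 1 := by
  have h : ∀ k, aug (μ ^ k) = 1 := by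
    intro k
    induction k with
    | zero => rw [pow_zero, aug_one]
    | succ k ih => rw [pow_succ, aug_mul, ih, hμ1, mul_one]
  rw [avg, map_smul, map_sum]
  simp only [h, Finset.sum_const, Finset.card_range, nsmul_eq_mul, mul_one, smul_eq_mul]
  push_cast
  exact inv_mul_cancel₀ (by exact_mod_cast Nat.succ_ne_zero m)

theorem aug_eq_zero_of_mem {μ a : L1 G} (hμ1 : aug μ = 1) (ha : a ∈ JJ μ) : aug a = 0 := by
  have h := ((aug : L1 G →L[ℂ] ℂ).continuous.tendsto 0).comp (mem_JJ.1 ha)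
  rw [map_zero] at h
  have h2 : (aug ∘ fun m => a * avg μ m) = fun _ => aug a := by
    funext m
    show aug (a * avg μ m) = _
    rw [aug_mul, aug_avg hμ1, mul_one]
  rw [h2] at h
  exact tendsto_nhds_unique tendsto_const_nhds h

theorem aug_eq_zero_of_left {μ a : L1 G} (hμ1 : aug μ = 1)
    (ha : Tendsto (fun m => avg μ m * a) atTop (𝓝 0)) : aug a = 0 := by
  have h := ((aug : L1 G →L[ℂ] ℂ).continuous.tendsto 0).comp ha
  rw [map_zero] at h
  have h2 : (aug ∘ fun m => avg μ m * a) = fun _ => aug a := by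
    funext m
    show aug (avg μ m * a) = _
    rw [aug_mul, aug_avg hμ1, one_mul]
  rw [h2] at h
  exact tendsto_nhds_unique tendsto_const_nhds h

end JJ

section Quot

variable {G : Type u} [Group G]

/-- The representation on a quotient by a closed left ideal. -/
noncomputable def quotRep (S : Submodule ℂ (L1 G)) [IsClosed (S : Set (L1 G))]
    (hS : ∀ g : G, ∀ a ∈ S, del g * a ∈ S) : BRep G (L1 G ⧸ S) where
  op g := S.liftQL (S.mkQL.comp (mulL (del g))) (fun a ha => by
    show S.mkQ (del g * a) = 0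
    rw [Submodule.mkQ_apply, Submodule.Quotient.mk_eq_zero]
    exact hS g a ha)
  op_one := by
    apply ContinuousLinearMap.ext
    intro x
    obtain ⟨a, rfl⟩ := Submodule.mkQ_surjective S x
    show S.mkQ (del 1 * a) = S.mkQ a
    rw [← one_def, one_mul]
  op_mul g h := by
    apply ContinuousLinearMap.ext
    intro x
    obtain ⟨a, rfl⟩ := Submodule.mkQ_surjective S x
    show S.mkQ (del (g * h) * a) = S.mkQ (del g * (del h * a))
    rw [← mul_assoc, del_mul_del]
  bdd := by
    refine ⟨1, fun g => ContinuousLinearMap.opNorm_le_bound _ zero_le_one fun x => ?_⟩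
    rw [one_mul]
    refine le_of_forall_pos_le_add fun ε hε => ?_
    obtain ⟨a, rfl, ha⟩ := Submodule.Quotient.norm_mk_lt x hε
    show ‖(Submodule.Quotient.mk (del g * a) : L1 G ⧸ S)‖ ≤ _
    refine (Submodule.Quotient.norm_mk_le _ _).trans ?_
    refine (norm_mul_le' _ _).trans ?_
    rw [norm_del, one_mul]
    exact ha.le

theorem quotRep_op (S : Submodule ℂ (L1 G)) [IsClosed (S : Set (L1 G))]
    (hS : ∀ g : G, ∀ a ∈ S, del g * a ∈ S) (g : G) (a : L1 G) :
    (quotRep S hS).op g (S.mkQ a) = S.mkQ (del g * a) := rfl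

theorem quotRep_act (S : Submodule ℂ (L1 G)) [IsClosed (S : Set (L1 G))]
    (hS : ∀ g : G, ∀ a ∈ S, del g * a ∈ S) (f a : L1 G) :
    (quotRep S hS).act f (S.mkQ a) = S.mkQ (f * a) := by
  have h : ((ContinuousLinearMap.apply ℂ (L1 G ⧸ S) (S.mkQ a)).comp (quotRep S hS).act :
      L1 G →L[ℂ] (L1 G ⧸ S)) = S.mkQL.comp (mulL.flip a) := by
    apply clm_ext
    intro g
    simp only [ContinuousLinearMap.comp_apply, ContinuousLinearMap.apply_apply, BRep.act_del,
      quotRep_op, ContinuousLinearMap.flip_apply, Submodule.mkQL_apply]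
    rfl
  have h3 := congrArg (fun T : L1 G →L[ℂ] (L1 G ⧸ S) => T f) h
  simp only [ContinuousLinearMap.comp_apply, ContinuousLinearMap.apply_apply,
    ContinuousLinearMap.flip_apply, Submodule.mkQL_apply] at h3
  exact h3

end Quot

end Run7.h939
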