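import Pool.Agent.Run7.h939.Zthm

set_option autoImplicit false
open scoped ENNReal Topology
open Filter

namespace Run7.h939

universe u v w z

section Core

variable {G : Type u} [Group G] {E : Type v} [NormedAddCommGroup E] [NormedSpace ℂ E]

theorem core_bound {μ : L1 G} (hμ : Pos μ) (hμ1 : aug μ = 1) [hcl : IsClosed (JJ μ : Set (L1 G))]
    (ρ : BRep G E) (ℓ : E →L[ℂ] ℂ) (g : G) (hg : 0 < ‖cf μ g‖) :
    ∃ K : ℝ, 0 ≤ K ∧ ∀ (m : ℕ) (t : ℝ), 0 < t →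
      ‖(homRep ρ (quotRep (JJ μ) (fun _ _ ha => JJ_mul _ ha))).act (avg μ m)
        (ℓ.smulRight ((JJ μ).mkQ (del g - 1)))‖ ≤ K * (t + 1 / (4 * t * ‖cf μ g‖ * (m + 1))) := by
  obtain ⟨C, hC⟩ := ρ.bdd
  have hC0 : 0 ≤ C := (norm_nonneg _).trans (hC 1)
  refine ⟨‖ℓ‖ * C, by positivity, fun m t ht => ?_⟩
  set σ := quotRep (JJ μ) (fun _ _ ha => JJ_mul _ ha) with hσ
  set x : E →L[ℂ] (L1 G ⧸ JJ μ) := ℓ.smulRight ((JJ μ).mkQ (del g - 1)) with hx
  have hB : 0 ≤ t + 1 / (4 * t * ‖cf μ g‖ * (m + 1)) := by positivity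
  refine ContinuousLinearMap.opNorm_le_bound _ (by positivity) fun v => ?_
  refine NormedSpace.norm_le_dual_bound ℂ _ (by positivity) fun f => ?_
  set φ : L1 G →L[ℂ] ℂ := f.comp (JJ μ).mkQL with hφdef
  have hmk : ‖((JJ μ).mkQL : L1 G →L[ℂ] (L1 G ⧸ JJ μ))‖ ≤ 1 := by
    refine ContinuousLinearMap.opNorm_le_bound _ zero_le_one fun a => ?_
    rw [one_mul]
    exact Submodule.Quotient.norm_mk_le _ a
  have hφn : ‖φ‖ ≤ ‖f‖ := by
    refine (ContinuousLinearMap.opNorm_comp_le _ _).trans ?_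
    exact mul_le_of_le_one_right (norm_nonneg _) hmk
  have hφ : ∀ y, φ (del y * μ) = φ (del y) := by
    intro y
    have h1 : del y - del y * μ ∈ JJ μ := by
      have h2 : del y - del y * μ = del y * (1 - μ) := by rw [mul_sub, mul_one]
      rw [h2]
      exact JJ_mul _ (one_sub_mem_JJ fun k => (hμ.norm_pow hμ1 k).le)
    have h3 : (JJ μ).mkQ (del y - del y * μ) = 0 := by
      rw [Submodule.mkQ_apply, Submodule.Quotient.mk_eq_zero]
      exact h1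
    have h4 : φ (del y - del y * μ) = 0 := by
      show f ((JJ μ).mkQ (del y - del y * μ)) = 0
      rw [h3, map_zero]
    rw [map_sub, sub_eq_zero] at h4
    exact h4.symm
  let H : G → ℂ := fun y => ℓ (ρ.op y⁻¹ v) * (φ (del (y * g)) - φ (del y))
  have hHb : ∀ y, ‖H y‖ ≤ (‖ℓ‖ * (C * ‖v‖)) * dF φ g y := by
    intro y
    show ‖ℓ (ρ.op y⁻¹ v) * (φ (del (y * g)) - φ (del y))‖ ≤ _
    rw [norm_mul]
    refine mul_le_mul_of_nonneg_right ?_ (norm_nonneg _)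
    refine (ℓ.le_opNorm _).trans ?_
    refine mul_le_mul_of_nonneg_left ?_ (norm_nonneg _)
    refine ((ρ.op y⁻¹).le_opNorm v).trans ?_
    exact mul_le_mul_of_nonneg_right (hC _) (norm_nonneg _)
  have hH : Bdd H := by
    refine ⟨(‖ℓ‖ * (C * ‖v‖)) * (2 * ‖φ‖), fun y => (hHb y).trans ?_⟩
    exact mul_le_mul_of_nonneg_left (dF_le φ g y) (by positivity)
  have key : f ((homRep ρ σ).act (avg μ m) x v) = lift H hH (avg μ m) := by
    have h : (f.comp ((ContinuousLinearMap.apply ℂ (L1 G ⧸ JJ μ) v).comp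
        ((ContinuousLinearMap.apply ℂ (E →L[ℂ] (L1 G ⧸ JJ μ)) x).comp (homRep ρ σ).act)) :
        L1 G →L[ℂ] ℂ) = lift H hH := by
      apply clm_ext
      intro y
      rw [lift_del]
      show f ((homRep ρ σ).act (del y) x v) = _
      rw [BRep.act_del, homRep_op]
      show f (σ.op y (ℓ (ρ.op y⁻¹ v) • (JJ μ).mkQ (del g - 1))) = _
      rw [map_smul, map_smul, hσ, quotRep_op, mul_sub, del_mul_del, mul_one, map_sub, map_sub,
        smul_eq_mul]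
      rfl
    exact congrArg (fun T : L1 G →L[ℂ] ℂ => T (avg μ m)) h
  rw [key]
  have h1 := lift_avg_le' hμ hμ1 hφ g hg m hH (by positivity) hHb ht
  refine h1.trans ?_
  calc ‖ℓ‖ * (C * ‖v‖) * ‖φ‖ * (t + 1 / (4 * t * ‖cf μ g‖ * (m + 1)))
      ≤ ‖ℓ‖ * (C * ‖v‖) * ‖f‖ * (t + 1 / (4 * t * ‖cf μ g‖ * (m + 1))) := by gcongr
    _ = _ := by ring

theorem tendsto_aux {K q : ℝ} (hK : 0 ≤ K) (hq : 0 < q) {F : ℕ → ℝ} (hF0 : ∀ m, 0 ≤ F m)
    (hF : ∀ (m : ℕ) (t : ℝ), 0 < t → F m ≤ K * (t + 1 / (4 * t * q * (m + 1)))) :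
    Tendsto F atTop (𝓝 0) := by
  rw [Metric.tendsto_atTop]
  intro ε hε
  set t := ε / (4 * (K + 1)) with ht
  have ht0 : 0 < t := by positivity
  obtain ⟨N, hN⟩ := exists_nat_gt ((K + 1) / (4 * t * q * (ε / 4)))
  refine ⟨N, fun m hm => ?_⟩
  rw [Real.dist_eq, sub_zero, abs_of_nonneg (hF0 m)]
  refine lt_of_le_of_lt (hF m t ht0) ?_
  have h1 : K * t ≤ ε / 4 := by
    rw [ht]
    rw [mul_div_assoc', div_le_div_iff₀ (by positivity) (by norm_num)]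
    nlinarith
  have h2 : K * (1 / (4 * t * q * (m + 1))) ≤ ε / 4 := by
    have hm1 : (K + 1) / (4 * t * q * (ε / 4)) < (m : ℝ) + 1 := by
      have : (N : ℝ) ≤ m := by exact_mod_cast hm
      linarith
    rw [div_lt_iff₀ (by positivity)] at hm1
    rw [mul_one_div, div_le_iff₀ (by positivity)]
    nlinarith
  rw [mul_add]
  linarith

theorem core_tendsto {μ : L1 G} (hμ : Pos μ) (hμ1 : aug μ = 1)
    {Q : Type w} [NormedAddCommGroup Q] [NormedSpace ℂ Q] [CompleteSpace Q]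
    (q : L1 G →L[ℂ] Q) (ρ : BRep G E) (σ : BRep G Q) (ℓ : E →L[ℂ] ℂ)
    (hgen' : ∀ g : G, Tendsto (fun m => (homRep ρ σ).act (avg μ m)
        (ℓ.smulRight (q (del g - 1)))) atTop (𝓝 0)) {h : L1 G} (hh : aug h = 0) :
    Tendsto (fun m => (homRep ρ σ).act (avg μ m) (ℓ.smulRight (q h))) atTop (𝓝 0) := by
  set Θ := (homRep ρ σ).act with hΘ
  let sr : L1 G →L[ℂ] (E →L[ℂ] Q) := (ContinuousLinearMap.smulRightL ℂ E Q ℓ).comp q
  have hsr : ∀ a, sr a = ℓ.smulRight (q a) := fun a => rfl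
  let T : ℕ → L1 G →L[ℂ] (E →L[ℂ] Q) := fun m => (Θ (avg μ m)).comp sr
  have hT : ∀ m, ‖T m‖ ≤ ‖Θ‖ * ‖sr‖ := by
    intro m
    refine (ContinuousLinearMap.opNorm_comp_le _ _).trans ?_
    refine mul_le_mul_of_nonneg_right ?_ (norm_nonneg _)
    refine (Θ.le_opNorm _).trans ?_
    exact mul_le_of_le_one_right Θ.opNorm_nonneg
      (norm_avg_le (fun k => (hμ.norm_pow hμ1 k).le) m)
  have hclT : IsClosed (zeroSub T : Set (L1 G)) := isClosed_zeroSub hT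
  have hgen : ∀ g : G, (del g - 1 : L1 G) ∈ zeroSub T := hgen'
  have hs : HasSum (fun g => cf h g • (del g - 1 : L1 G)) h := by
    have h1 := hasSum_del h
    have h2 : HasSum (fun g => cf h g • (1 : L1 G)) ((aug h) • (1 : L1 G)) := by
      have h3 : HasSum (fun g => cf h g) (aug h) := by
        rw [aug_eq]
        exact (summable_cf h).of_norm.hasSum
      exact h3.smul_const _
    have h3 := h1.sub h2
    rw [hh, zero_smul, sub_zero] at h3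
    simpa [smul_sub] using h3
  have hmem : h ∈ zeroSub T := by
    refine hclT.mem_of_tendsto hs (Eventually.of_forall fun s => ?_)
    exact Submodule.sum_mem _ fun g _ => Submodule.smul_mem _ _ (hgen g)
  exact hmem

theorem core_tendsto' {μ : L1 G} (hμ : Pos μ) (hμ1 : aug μ = 1)
    [hcl : IsClosed (JJ μ : Set (L1 G))] (hfull : ∀ g, 0 < ‖cf μ g‖)
    (ρ : BRep G E) (ℓ : E →L[ℂ] ℂ) {h : L1 G} (hh : aug h = 0) :
    Tendsto (fun m => (homRep ρ (quotRep (JJ μ) (fun _ _ ha => JJ_mul _ ha))).act (avg μ m)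
        (ℓ.smulRight ((JJ μ).mkQ h))) atTop (𝓝 0) := by
  refine core_tendsto hμ hμ1 (JJ μ).mkQL ρ (quotRep (JJ μ) (fun _ _ ha => JJ_mul _ ha)) ℓ ?_ hh
  intro g
  rw [tendsto_zero_iff_norm_tendsto_zero]
  obtain ⟨K, hK, hb⟩ := core_bound hμ hμ1 ρ ℓ g (hfull g)
  exact tendsto_aux hK (hfull g) (fun m => norm_nonneg _) hb

end Core

section Z

variable {G : Type u} [Group G] {E : Type v} [NormedAddCommGroup E] [NormedSpace ℂ E]
  [FiniteDimensional ℂ E] [CompleteSpace E]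

theorem thmZ {μ : L1 G} (hμ : Pos μ) (hμ1 : aug μ = 1) (hfull : ∀ g, 0 < ‖cf μ g‖)
    (ρ : BRep G E) (ψ : L1 G →ₗ[ℂ] E)
    (hψ : ∀ f h : L1 G, aug h = 0 → ψ (f * h) = ρ.act f (ψ h))
    (hJ : ∀ a ∈ JJ μ, ψ a = 0) {h : L1 G} (hh : aug h = 0) : ψ h = 0 := by
  have hpow : ∀ k, ‖μ ^ k‖ ≤ 1 := fun k => (hμ.norm_pow hμ1 k).le
  have hcl : IsClosed (JJ μ : Set (L1 G)) := isClosed_JJ hpow
  by_contra hne
  obtain ⟨ℓ, hℓ⟩ := SeparatingDual.exists_ne_zero (R := ℂ) hne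
  apply hℓ
  set σ := quotRep (JJ μ) (fun _ _ ha => JJ_mul _ ha) with hσ
  set x : E →L[ℂ] (L1 G ⧸ JJ μ) := ℓ.smulRight ((JJ μ).mkQ h) with hx
  have hconv : Tendsto (fun m => (homRep ρ σ).act (avg μ m) x) atTop (𝓝 0) :=
    core_tendsto' hμ hμ1 hfull ρ ℓ hh
  obtain ⟨p, y, _, hp0, hpy, _, hZ⟩ := factor hpow (homRep ρ σ).act_one
    (fun a b _ => (homRep ρ σ).act_mul a b) hconv
  have hp : aug p = 0 := aug_eq_zero_of_left hμ1 hp0
  let εb : (L1 G ⧸ JJ μ) →L[ℂ] ℂ := (JJ μ).liftQL aug (fun a ha => aug_eq_zero_of_mem hμ1 ha)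
  have hεb : ∀ a, εb ((JJ μ).mkQ a) = aug a := fun a => rfl
  have hεact : ∀ (a : G) (q : L1 G ⧸ JJ μ), εb (σ.op a q) = εb q := by
    intro a q
    obtain ⟨b, rfl⟩ := Submodule.mkQ_surjective _ q
    rw [hσ, quotRep_op, hεb, hεb, aug_mul, aug_del, one_mul]
  let Z : Submodule ℂ (E →L[ℂ] (L1 G ⧸ JJ μ)) :=
    { carrier := {ξ | ∀ v, εb (ξ v) = 0}
      add_mem' := by
        intro a b ha hb v
        rw [add_apply, map_add, ha v, hb v, add_zero]
      zero_mem' := fun v => by rw [zero_apply, map_zero]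
      smul_mem' := by
        intro c a ha v
        rw [smul_apply, map_smul, ha v, smul_zero] }
  have hZcl : IsClosed (Z : Set (E →L[ℂ] (L1 G ⧸ JJ μ))) := by
    have : (Z : Set (E →L[ℂ] (L1 G ⧸ JJ μ))) =
        ⋂ v : E, {ξ | (εb.comp (ContinuousLinearMap.apply ℂ (L1 G ⧸ JJ μ) v)) ξ = 0} := by
      ext ξ
      simp only [Set.mem_iInter]
      rfl
    rw [this]
    exact isClosed_iInter fun v => isClosed_eq
      (εb.comp (ContinuousLinearMap.apply ℂ (L1 G ⧸ JJ μ) v)).continuous continuous_const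
  have hZinv : ∀ a, ∀ z ∈ Z, (homRep ρ σ).act a z ∈ Z := by
    intro a z hz v
    have h1 : (εb.comp ((ContinuousLinearMap.apply ℂ (L1 G ⧸ JJ μ) v).comp
        ((ContinuousLinearMap.apply ℂ (E →L[ℂ] (L1 G ⧸ JJ μ)) z).comp (homRep ρ σ).act)) :
        L1 G →L[ℂ] ℂ) = 0 := by
      apply clm_ext
      intro g
      show εb ((homRep ρ σ).act (del g) z v) = 0
      rw [BRep.act_del, homRep_op, hεact]
      exact hz _
    exact congrArg (fun T : L1 G →L[ℂ] ℂ => T a) h1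
  have hxZ : x ∈ Z := by
    intro v
    show εb (ℓ v • (JJ μ).mkQ h) = 0
    rw [map_smul, hεb, hh, smul_zero]
  have hyZ : y ∈ Z := hZ Z hZcl hxZ hZinv
  let ψb : (L1 G ⧸ JJ μ) →ₗ[ℂ] E := (JJ μ).liftQ ψ (fun a ha => hJ a ha)
  have hψb : ∀ a, ψb ((JJ μ).mkQ a) = ψ a := fun a => rfl
  have hT : ∀ f v, ψb (σ.act f (y v)) = ρ.act f (ψb (y v)) := by
    intro f v
    have h1 := hyZ v
    obtain ⟨b, hb⟩ := Submodule.mkQ_surjective _ (y v)
    rw [← hb] at h1 ⊢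
    rw [hεb] at h1
    rw [hσ, quotRep_act, hψb, hψb, hψ f b h1]
  set S : E →L[ℂ] E := LinearMap.toContinuousLinearMap (ψb ∘ₗ (y : E →ₗ[ℂ] (L1 G ⧸ JJ μ)))
  have h1 : ∀ v, ψb (x v) = (homRep ρ ρ).act p S v := by
    intro v
    rw [← hpy]
    exact lemT ρ σ ρ ψb y hT p v
  have h2 : ((homRep ρ ρ).act p S : E →L[ℂ] E) = ℓ.smulRight (ψ h) := by
    apply ContinuousLinearMap.ext
    intro v
    rw [← h1 v]
    show ψb (ℓ v • (JJ μ).mkQ h) = ℓ v • ψ h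
    rw [map_smul, hψb]
  have h3 := trC_act ρ p S
  rw [h2, hp, zero_mul, trC_apply] at h3
  have h4 : ((ℓ.smulRight (ψ h) : E →L[ℂ] E) : E →ₗ[ℂ] E) =
      (ℓ : E →ₗ[ℂ] ℂ).smulRight (ψ h) := rfl
  rw [h4, LinearMap.trace_smulRight] at h3
  exact h3

end Z

end Run7.h939
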